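import Mathlib

set_option autoImplicit false

open Pointwise

namespace Pool.MP_2bb03e_al.KG

variable {G : Type*} [Group G]

/-- powers of congruent elements are congruent -/
theorem pow_congr_mem (N : Subgroup G) (x y : G) (hx : x ∈ Subgroup.normalizer (N : Set G))
    (hxy : x⁻¹ * y ∈ N) (k : ℕ) : (x ^ k)⁻¹ * y ^ k ∈ N := by
  induction k with
  | zero => simp [N.one_mem]
  | succ k ih =>
    have h1 : x⁻¹ * ((x ^ k)⁻¹ * y ^ k) * x ∈ N := by
      have := (Subgroup.mem_normalizer_iff'' (H := N)).mp hx ((x ^ k)⁻¹ * y ^ k)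
      exact this.mp ih
    have h2 : (x ^ (k+1))⁻¹ * y ^ (k+1) = x⁻¹ * ((x ^ k)⁻¹ * y ^ k) * x * (x⁻¹ * y) := by
      rw [pow_succ, pow_succ]; group
    rw [h2]
    exact N.mul_mem h1 hxy

theorem mem_norm_of_congr (N : Subgroup G) (x y : G) (hx : x ∈ Subgroup.normalizer (N : Set G))
    (hxy : x⁻¹ * y ∈ N) : y ∈ Subgroup.normalizer (N : Set G) := by
  have h : y = x * (x⁻¹ * y) := by group
  rw [h]
  exact Subgroup.mul_mem _ hx (Subgroup.le_normalizer hxy)

theorem eq_one_of_mem_coprime (N : Subgroup G) (y : G) (hy : y ∈ N)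
    (cy : (orderOf y).Coprime (Nat.card N)) : y = 1 := by
  have h : orderOf y ∣ Nat.card N := Subgroup.orderOf_dvd_natCard N hy
  exact orderOf_eq_one_iff.mp (Nat.Coprime.eq_one_of_dvd cy h)

theorem orderOf_conj_eq (m h : G) : orderOf (m * h * m⁻¹) = orderOf h :=
  MulEquiv.orderOf_eq (MulAut.conj m) h

theorem orderOf_conj_eq' (m h : G) : orderOf (m⁻¹ * h * m) = orderOf h := by
  have := orderOf_conj_eq m⁻¹ h
  rwa [inv_inv] at this

theorem CL_prime [Finite G] (p : ℕ) (hp : p.Prime) (a : ℕ) (N : Subgroup G) (x y : G)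
    (hx : x ∈ Subgroup.normalizer (N : Set G)) (hxy : x⁻¹ * y ∈ N)
    (hxp : x ^ (p^a) = 1) (hyp : y ^ (p^a) = 1) (hpN : ¬ p ∣ Nat.card N) :
    ∃ n ∈ N, n * x * n⁻¹ = y := by
  classical
  have : Fintype N := Fintype.ofFinite N
  have : Fact p.Prime := ⟨hp⟩
  have hmem : ∀ n ∈ N, y * n * x⁻¹ ∈ N := by
    intro n hn
    have h1 : y * n * x⁻¹ = x * ((x⁻¹ * y) * n) * x⁻¹ := by group
    rw [h1]
    exact ((Subgroup.mem_normalizer_iff (H := N)).mp hx _).mp (N.mul_mem hxy hn)
  let f : Function.End N := fun n => ⟨y * n * x⁻¹, hmem n n.2⟩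
  have hf : ∀ (k : ℕ) (n : N), (((f ^ k) n : N) : G) = y ^ k * n * (x ^ k)⁻¹ := by
    intro k
    induction k with
    | zero => intro n; simp [show ((1 : Function.End N) n) = n from rfl]
    | succ k ih =>
      intro n
      rw [pow_succ', show (f * f ^ k) n = f ((f ^ k) n) from rfl]
      change y * (((f ^ k) n : N) : G) * x⁻¹ = _
      rw [ih, pow_succ', pow_succ]
      group
  have hfp : f ^ p ^ a = 1 := by
    funext n
    apply Subtype.ext
    rw [hf, hxp, hyp]
    simp [show ((1 : Function.End N) n) = n from rfl]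
  have hc := Equiv.Perm.card_fixedPoints_modEq (p := p) (n := a) hfp
  have hne : Fintype.card (Function.fixedPoints f) ≠ 0 := by
    intro h0
    rw [h0] at hc
    apply hpN
    rw [Nat.card_eq_fintype_card]
    exact (Nat.modEq_zero_iff_dvd).mp hc
  obtain ⟨⟨n, hn⟩⟩ := Fintype.card_pos_iff.mp (Nat.pos_of_ne_zero hne)
  refine ⟨n, n.2, ?_⟩
  have h1 : f n = n := hn
  have h2 : y * n * x⁻¹ = (n : G) := congrArg Subtype.val h1
  have h3 : (n : G) * x = y * n := by
    conv_lhs => rw [← h2]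
    group
  rw [h3]; group

/-- conjugacy of coprime elements in the same coset -/
theorem CL [Finite G] (m : ℕ) : ∀ (N : Subgroup G) (x y : G), orderOf x ≤ m →
    x ∈ Subgroup.normalizer (N : Set G) → x⁻¹ * y ∈ N →
    (orderOf x).Coprime (Nat.card N) → (orderOf y).Coprime (Nat.card N) →
    ∃ n ∈ N, n * x * n⁻¹ = y := by
  induction m with
  | zero =>
    intro N x y h
    exact absurd (orderOf_pos x) (by omega)
  | succ m ih =>
    intro N x y hm hx hxy cx cy
    have hy := mem_norm_of_congr N x y hx hxy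
    have hyx : y⁻¹ * x ∈ N := by
      have : y⁻¹ * x = (x⁻¹ * y)⁻¹ := by group
      rw [this]; exact N.inv_mem hxy
    -- order of y divides order of x
    have hdiv : ∀ (x y : G), x ∈ Subgroup.normalizer (N : Set G) → x⁻¹ * y ∈ N →
        (orderOf y).Coprime (Nat.card N) → orderOf y ∣ orderOf x := by
      intro x y hx hxy cy
      have h1 := pow_congr_mem N x y hx hxy (orderOf x)
      rw [pow_orderOf_eq_one, inv_one, one_mul] at h1
      have h2 : (orderOf (y ^ orderOf x)).Coprime (Nat.card N) :=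
        Nat.Coprime.coprime_dvd_left (orderOf_pow_dvd _) cy
      exact orderOf_dvd_of_pow_eq_one (eq_one_of_mem_coprime N _ h1 h2)
    have hord : orderOf y = orderOf x :=
      Nat.dvd_antisymm (hdiv x y hx hxy cy) (hdiv y x hy hyx cx)
    by_cases h1 : orderOf x = 1
    · have hx1 : x = 1 := orderOf_eq_one_iff.mp h1
      have hy1 : y = 1 := orderOf_eq_one_iff.mp (hord.trans h1)
      exact ⟨1, N.one_mem, by simp [hx1, hy1]⟩
    · obtain ⟨p, hp, hpd⟩ := Nat.exists_prime_and_dvd h1
      have hpos : orderOf x ≠ 0 := (orderOf_pos x).ne'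
      obtain ⟨a, r, hr, har⟩ := Nat.exists_eq_pow_mul_and_not_dvd hpos p hp.one_lt.ne'
      have hcop : (p ^ a).Coprime r := by
        apply Nat.Coprime.pow_left
        exact (Nat.Prime.coprime_iff_not_dvd hp).mpr hr
      have ha : a ≠ 0 := by
        rintro rfl
        apply hr
        rwa [har, pow_zero, one_mul] at hpd
      obtain ⟨u, hu1, hu2⟩ := Nat.chineseRemainder hcop 1 0
      obtain ⟨v, hv1, hv2⟩ := Nat.chineseRemainder hcop 0 1
      have huv : u + v ≡ 1 [MOD orderOf x] := by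
        rw [har]
        refine (Nat.modEq_and_modEq_iff_modEq_mul hcop).mp ⟨?_, ?_⟩
        · simpa using hu1.add hv1
        · simpa using hu2.add hv2
      have hxuv : x ^ u * x ^ v = x := by
        rw [← pow_add]
        have := (pow_eq_pow_iff_modEq (x := x) (n := u + v) (m := 1)).mpr huv
        rwa [pow_one] at this
      have hyuv : y ^ u * y ^ v = y := by
        rw [← pow_add]
        have := (pow_eq_pow_iff_modEq (x := y) (n := u + v) (m := 1)).mpr (hord ▸ huv)
        rwa [pow_one] at this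
      have hru : r ∣ u := (Nat.modEq_zero_iff_dvd).mp hu2
      have hpv : p ^ a ∣ v := (Nat.modEq_zero_iff_dvd).mp hv1
      have hxu : (x ^ u) ^ (p ^ a) = 1 := by
        rw [← pow_mul]
        apply orderOf_dvd_iff_pow_eq_one.mp
        rw [har, mul_comm u]
        exact Nat.mul_dvd_mul_left _ hru
      have hyu : (y ^ u) ^ (p ^ a) = 1 := by
        rw [← pow_mul]
        apply orderOf_dvd_iff_pow_eq_one.mp
        rw [hord, har, mul_comm u]
        exact Nat.mul_dvd_mul_left _ hru
      have hxv : (x ^ v) ^ r = 1 := by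
        rw [← pow_mul]
        apply orderOf_dvd_iff_pow_eq_one.mp
        rw [har]
        exact Nat.mul_dvd_mul_right hpv _
      have hyv : (y ^ v) ^ r = 1 := by
        rw [← pow_mul]
        apply orderOf_dvd_iff_pow_eq_one.mp
        rw [hord, har]
        exact Nat.mul_dvd_mul_right hpv _
      have hpN : ¬ p ∣ Nat.card N := by
        intro h
        exact hp.one_lt.ne' (Nat.Coprime.eq_one_of_dvd
          (Nat.Coprime.coprime_dvd_left hpd cx) h)
      obtain ⟨n₁, hn₁, e₁⟩ := CL_prime p hp a N (x ^ u) (y ^ u) (Subgroup.pow_mem _ hx u)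
        (pow_congr_mem N x y hx hxy u) hxu hyu hpN
      -- replace x by its conjugate
      set x' := n₁ * x * n₁⁻¹ with hx'
      have hx'pow : ∀ k : ℕ, x' ^ k = n₁ * x ^ k * n₁⁻¹ := fun k => conj_pow
      have hx'u : x' ^ u = y ^ u := by rw [hx'pow]; exact e₁
      have hx'n : x' ∈ Subgroup.normalizer (N : Set G) :=
        Subgroup.mul_mem _ (Subgroup.mul_mem _ (Subgroup.le_normalizer hn₁) hx)
          (Subgroup.inv_mem _ (Subgroup.le_normalizer hn₁))
      have hx'y : x'⁻¹ * y ∈ N := by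
        have : x'⁻¹ * y = n₁ * (x⁻¹ * n₁⁻¹ * x) * (x⁻¹ * y) := by rw [hx']; group
        rw [this]
        refine N.mul_mem (N.mul_mem hn₁ ?_) hxy
        exact ((Subgroup.mem_normalizer_iff'' (H := N)).mp hx _).mp (N.inv_mem hn₁)
      have hcx' : x' ^ v * y ^ u = y ^ u * x' ^ v := by
        rw [← hx'u, ← pow_add, ← pow_add, add_comm]
      have hcy : y ^ v * y ^ u = y ^ u * y ^ v := by
        rw [← pow_add, ← pow_add, add_comm]
      let C := Subgroup.centralizer ({y ^ u} : Set G)
      have hx'C : x' ^ v ∈ C := Subgroup.mem_centralizer_singleton_iff.mpr hcx'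
      have hyC : y ^ v ∈ C := Subgroup.mem_centralizer_singleton_iff.mpr hcy
      have hr1 : orderOf (x' ^ v) ∣ r := by
        apply orderOf_dvd_of_pow_eq_one
        rw [hx'pow, conj_pow, hxv]; group
      have hr2 : orderOf (y ^ v) ∣ r := orderOf_dvd_of_pow_eq_one hyv
      have hrpos : 0 < r := by
        rcases Nat.eq_zero_or_pos r with h | h
        · exact absurd (h ▸ dvd_zero p) hr
        · exact h
      have hrm : r ≤ m := by
        have h2 : 2 ≤ p ^ a := le_trans hp.two_le (Nat.le_self_pow ha p)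
        have : 2 * r ≤ p ^ a * r := Nat.mul_le_mul_right r h2
        rw [← har] at this
        omega
      have hrN : r.Coprime (Nat.card N) :=
        Nat.Coprime.coprime_dvd_left (by rw [har]; exact Dvd.intro_left _ rfl) cx
      have hNC : Nat.card (N ⊓ C : Subgroup G) ∣ Nat.card N :=
        Subgroup.card_dvd_of_le inf_le_left
      have hrNC : r.Coprime (Nat.card (N ⊓ C : Subgroup G)) :=
        Nat.Coprime.coprime_dvd_right hNC hrN
      obtain ⟨n₂, hn₂, e₂⟩ := ih (N ⊓ C) (x' ^ v) (y ^ v)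
        (le_trans (Nat.le_of_dvd hrpos hr1) hrm)
        (by
          rw [Subgroup.mem_normalizer_iff]
          intro h
          have hxv' := (Subgroup.mem_normalizer_iff (H := N)).mp (Subgroup.pow_mem _ hx'n v) h
          constructor
          · rintro ⟨h1, h2⟩
            exact ⟨hxv'.mp h1, C.mul_mem (C.mul_mem hx'C h2) (C.inv_mem hx'C)⟩
          · rintro ⟨h1, h2⟩
            refine ⟨hxv'.mpr h1, ?_⟩
            have := C.mul_mem (C.mul_mem (C.inv_mem hx'C) h2) hx'C
            have e : (x' ^ v)⁻¹ * (x' ^ v * h * (x' ^ v)⁻¹) * x' ^ v = h := by group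
            rwa [e] at this)
        ⟨pow_congr_mem N x' y hx'n hx'y v, C.mul_mem (C.inv_mem hx'C) hyC⟩
        (Nat.Coprime.coprime_dvd_left hr1 hrNC) (Nat.Coprime.coprime_dvd_left hr2 hrNC)
      refine ⟨n₂ * n₁, N.mul_mem hn₂.1 hn₁, ?_⟩
      have hn₂C : n₂ * y ^ u = y ^ u * n₂ := Subgroup.mem_centralizer_singleton_iff.mp hn₂.2
      have hx'uv : x' = y ^ u * x' ^ v := by
        rw [← hx'u, ← pow_add, hx'pow, pow_add, hxuv]
      calc n₂ * n₁ * x * (n₂ * n₁)⁻¹ = n₂ * x' * n₂⁻¹ := by rw [hx']; group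
        _ = n₂ * (y ^ u * x' ^ v) * n₂⁻¹ := by rw [← hx'uv]
        _ = (n₂ * y ^ u) * x' ^ v * n₂⁻¹ := by group
        _ = y ^ u * (n₂ * x' ^ v * n₂⁻¹) := by rw [hn₂C]; group
        _ = y ^ u * y ^ v := by rw [e₂]
        _ = y := hyuv

/-- an element of coprime order in `N ⊔ L` is conjugate by `N` to an element of `L` -/
theorem conj_into [Finite G] (N L : Subgroup G) (hL : L ≤ Subgroup.normalizer (N : Set G)) (h : G)
    (hh : h ∈ N ⊔ L) (ch : (orderOf h).Coprime (Nat.card N)) :
    ∃ n ∈ N, n⁻¹ * h * n ∈ L := by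
  have h1 : h ∈ (L ⊔ N : Subgroup G) := by rwa [sup_comm] at hh
  have h2 : h ∈ ((L : Set G) * (N : Set G)) := by
    rw [← Subgroup.coe_mul_of_left_le_normalizer_right L N hL]; exact h1
  obtain ⟨l, hl, n₀, hn₀, rfl⟩ := Set.mem_mul.mp h2
  set h := l * n₀ with hdef
  have hlN : l ∈ Subgroup.normalizer (N : Set G) := hL hl
  have hlh : l⁻¹ * h ∈ N := by rw [hdef]; simpa using hn₀
  obtain ⟨e, he1, he2⟩ := Nat.chineseRemainder ch 1 0
  have hhe : h ^ e = h := by
    have := (pow_eq_pow_iff_modEq (x := h) (n := e) (m := 1)).mpr he1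
    rwa [pow_one] at this
  have hlm : l ^ orderOf h ∈ N := by
    have := pow_congr_mem N l h hlN hlh (orderOf h)
    rw [pow_orderOf_eq_one, mul_one] at this
    exact (N.inv_mem_iff).mp this
  have hle : (l ^ e) ^ orderOf h = 1 := by
    obtain ⟨t, ht⟩ := (Nat.modEq_zero_iff_dvd).mp he2
    rw [← pow_mul, mul_comm, pow_mul, ht, pow_mul]
    have : (l ^ orderOf h) ^ Nat.card N = 1 := by
      apply orderOf_dvd_iff_pow_eq_one.mp
      exact Subgroup.orderOf_dvd_natCard N hlm
    rw [this, one_pow]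
  have hlen : l ^ e ∈ Subgroup.normalizer (N : Set G) := Subgroup.pow_mem _ hlN e
  have hcong : (l ^ e)⁻¹ * h ∈ N := by
    have := pow_congr_mem N l h hlN hlh e
    rwa [hhe] at this
  obtain ⟨n, hn, e1⟩ := CL (orderOf (l ^ e)) N (l ^ e) h le_rfl hlen hcong
    (Nat.Coprime.coprime_dvd_left (orderOf_dvd_of_pow_eq_one hle) ch) ch
  refine ⟨n, hn, ?_⟩
  have : n⁻¹ * h * n = l ^ e := by rw [← e1]; group
  rw [this]
  exact L.pow_mem hl e

end Pool.MP_2bb03e_al.KG
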