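import Pool.Agent.Lib.MP_2bb03e_al.Kappa

set_option autoImplicit false

universe u

open Pointwise

namespace Pool.MP_2bb03e_al.KG

variable {G : Type u} [Group G]

theorem card_inf_mul_relIndex (Q P : Subgroup G) :
    Nat.card (Q ⊓ P : Subgroup G) * Q.relIndex P = Nat.card P := by
  rw [← Subgroup.inf_relIndex_right, ← Subgroup.relIndex_bot_left,
    Subgroup.relIndex_mul_relIndex _ _ _ bot_le inf_le_right, Subgroup.relIndex_bot_left]

/-- product of two subgroups of `E` is at most `|E|` -/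
theorem card_mul_card_le [Finite G] (P Q E : Subgroup G) (hP : P ≤ E) (hQ : Q ≤ E) :
    Nat.card P * Nat.card Q ≤ Nat.card (Q ⊓ P : Subgroup G) * Nat.card E := by
  have h1 := card_inf_mul_relIndex Q P
  have h2 := card_inf_mul_relIndex Q E
  rw [inf_eq_left.mpr hQ] at h2
  have h3 : Q.relIndex P ≤ Q.relIndex E := Subgroup.relIndex_le_of_le_right hP (by
    intro h0
    rw [h0, mul_zero] at h2
    exact (Nat.card_pos (α := E)).ne' h2.symm)
  rw [← h1, ← h2]
  calc _ = (Nat.card (Q ⊓ P : Subgroup G) * Nat.card Q) * Q.relIndex P := by ring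
    _ ≤ (Nat.card (Q ⊓ P : Subgroup G) * Nat.card Q) * Q.relIndex E := Nat.mul_le_mul_left _ h3
    _ = _ := by ring

theorem card_sup_mul (E N : Subgroup G) [N.Normal] :
    Nat.card (E ⊔ N : Subgroup G) * Nat.card (N ⊓ E : Subgroup G) = Nat.card N * Nat.card E := by
  have h1 := card_inf_mul_relIndex N (E ⊔ N)
  have h2 := card_inf_mul_relIndex N E
  rw [Subgroup.relIndex_sup_right, inf_eq_left.mpr (le_sup_right : N ≤ E ⊔ N)] at h1
  rw [← h1, ← h2]
  have : N ⊓ (N ⊓ E) = N ⊓ E := by rw [← inf_assoc, inf_idem]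
  ring

theorem mem_sup_normal (E N : Subgroup G) [N.Normal] (h : G) (hh : h ∈ (E ⊔ N : Subgroup G)) :
    ∃ e ∈ E, ∃ n ∈ N, h = e * n := by
  have h2 : h ∈ ((E : Set G) * (N : Set G)) := by
    rw [← Subgroup.mul_normal E N]; exact hh
  obtain ⟨e, he, n, hn, rfl⟩ := Set.mem_mul.mp h2
  exact ⟨e, he, n, hn, rfl⟩

/-- Dedekind + counting -/
theorem card_inf_sup (A M N : Subgroup G) [N.Normal] (hNA : N ≤ A) :
    Nat.card (A ⊓ (M ⊔ N) : Subgroup G) * Nat.card (N ⊓ M : Subgroup G) =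
      Nat.card N * Nat.card (A ⊓ M : Subgroup G) := by
  have h1 : A ⊓ (M ⊔ N) = (A ⊓ M) ⊔ N := by
    apply le_antisymm
    · rintro h ⟨hA, hMN⟩
      obtain ⟨m, hm, n, hn, rfl⟩ := mem_sup_normal M N h hMN
      refine Subgroup.mul_mem _ (Subgroup.mem_sup_left ⟨?_, hm⟩) (Subgroup.mem_sup_right hn)
      have := A.mul_mem hA (A.inv_mem (hNA hn))
      simpa using this
    · exact sup_le (inf_le_inf_left _ le_sup_left) (le_inf hNA le_sup_right)
  have h2 : N ⊓ (A ⊓ M) = N ⊓ M := by rw [← inf_assoc, inf_eq_left.mpr hNA]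
  rw [h1, ← card_sup_mul (A ⊓ M) N, h2]

theorem cj_sup_normal (g : G) (M N : Subgroup G) [hN : N.Normal] :
    cj g (M ⊔ N) = cj g M ⊔ N := by
  ext h
  rw [mem_cj]
  constructor
  · intro hh
    obtain ⟨m, hm, n, hn, e⟩ := mem_sup_normal M N _ hh
    have e1 : h = (g * m * g⁻¹) * (g * n * g⁻¹) := by
      have : h = g * (g⁻¹ * h * g) * g⁻¹ := by group
      rw [this, e]; group
    rw [e1]
    refine Subgroup.mul_mem _ (Subgroup.mem_sup_left ?_) (Subgroup.mem_sup_right ?_)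
    · rw [mem_cj]
      have : g⁻¹ * (g * m * g⁻¹) * g = m := by group
      rwa [this]
    · exact hN.conj_mem n hn g
  · intro hh
    obtain ⟨m, hm, n, hn, rfl⟩ := mem_sup_normal (cj g M) N _ hh
    rw [mem_cj] at hm
    have e1 : g⁻¹ * (m * n) * g = (g⁻¹ * m * g) * (g⁻¹ * n * g) := by group
    rw [e1]
    refine Subgroup.mul_mem _ (Subgroup.mem_sup_left hm) (Subgroup.mem_sup_right ?_)
    have := hN.conj_mem n hn g⁻¹
    rwa [inv_inv] at this

theorem le_cj_normal (g : G) (M N : Subgroup G) [hN : N.Normal] (h : N ≤ M) : N ≤ cj g M := by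
  intro n hn
  rw [mem_cj]
  apply h
  have := hN.conj_mem n hn g⁻¹
  rwa [inv_inv] at this

variable [Fintype G]

theorem card_cj (g : G) (M : Subgroup G) : (Nat.card (cj g M) : ℚ) = Nat.card M := by
  rw [← sum_ind_mem, ← sum_ind_mem, ← sum_conj' g (fun h => ind (h ∈ M))]
  refine Finset.sum_congr rfl (fun h _ => ?_)
  rw [mem_cj]

theorem card_inf_cj_normal (g : G) (M N : Subgroup G) [hN : N.Normal] :
    (Nat.card (N ⊓ cj g M : Subgroup G) : ℚ) = Nat.card (N ⊓ M : Subgroup G) := by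
  rw [← card_cj g (N ⊓ M)]
  congr 2
  have : N ⊓ cj g M = cj g (N ⊓ M) := by
    ext h
    rw [mem_cj]
    constructor
    · rintro ⟨h1, h2⟩
      have := hN.conj_mem h h1 g⁻¹
      rw [inv_inv] at this
      exact ⟨this, (mem_cj g M h).mp h2⟩
    · rintro ⟨h1, h2⟩
      have := hN.conj_mem _ h1 g
      have e : g * (g⁻¹ * h * g) * g⁻¹ = h := by group
      rw [e] at this
      exact ⟨this, (mem_cj g M h).mpr h2⟩
  rw [this]

/-- averaging over a subgroup -/
theorem sum_avg (N : Subgroup G) (F : G → ℚ) :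
    ∑ g : G, ∑ n : G, ind (n ∈ N) * F (n * g) = Nat.card N * ∑ g : G, F g := by
  rw [Finset.sum_comm, ← sum_ind_mem, Finset.sum_mul]
  refine Finset.sum_congr rfl (fun n _ => ?_)
  rw [← Finset.mul_sum, sum_mul_left n F]

/-- the quantity `R` -/
noncomputable def rr (B L : Subgroup G) (x : G) (g : G) : ℚ :=
  ∑ h : G, ind (g * x * g⁻¹ ∈ B ∧ h ∈ B ∧ g⁻¹ * h * g ∈ L)

noncomputable def R (B L : Subgroup G) (x : G) : ℚ := ∑ g : G, rr B L x g

noncomputable def al (L M : Subgroup G) (x w : G) (g : G) : ℚ :=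
  ∑ m : G, ind (m ∈ M ∧ g * w * g⁻¹ ∈ L ∧ g⁻¹ * x * g ∈ M ∧ g * m * g⁻¹ ∈ L)

noncomputable def Dn (L M : Subgroup G) (x w : G) : ℚ := ∑ g : G, al L M x w g

theorem rr_eq (B L : Subgroup G) (x g : G) :
    rr B L x g = ind (g * x * g⁻¹ ∈ B) * Nat.card (B ⊓ cj g L : Subgroup G) := by
  rw [← sum_ind_mem, Finset.mul_sum]
  unfold rr
  refine Finset.sum_congr rfl (fun h _ => ?_)
  rw [← ind_and]
  apply ind_congr
  rw [Subgroup.mem_inf, mem_cj]

theorem rr_nonneg (B L : Subgroup G) (x g : G) : 0 ≤ rr B L x g :=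
  Finset.sum_nonneg (fun _ _ => ind_nonneg _)

theorem al_nonneg (L M : Subgroup G) (x w g : G) : 0 ≤ al L M x w g :=
  Finset.sum_nonneg (fun _ _ => ind_nonneg _)

theorem R_nonneg (B L : Subgroup G) (x : G) : 0 ≤ R B L x :=
  Finset.sum_nonneg (fun _ _ => rr_nonneg _ _ _ _)

theorem Dn_nonneg (L M : Subgroup G) (x w : G) : 0 ≤ Dn L M x w :=
  Finset.sum_nonneg (fun _ _ => al_nonneg _ _ _ _ _)

/-- step (b) -/
theorem R_sup (A M N : Subgroup G) [N.Normal] (hNA : N ≤ A) (w : G) :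
    R A (M ⊔ N) w * Nat.card (N ⊓ M : Subgroup G) = Nat.card N * R A M w := by
  unfold R
  rw [Finset.sum_mul, Finset.mul_sum]
  refine Finset.sum_congr rfl (fun g _ => ?_)
  rw [rr_eq, rr_eq, cj_sup_normal]
  have h := card_inf_sup A (cj g M) N hNA
  have h' : (Nat.card (A ⊓ (cj g M ⊔ N) : Subgroup G) : ℚ) *
      Nat.card (N ⊓ cj g M : Subgroup G) = Nat.card N * Nat.card (A ⊓ cj g M : Subgroup G) := by
    exact_mod_cast h
  rw [card_inf_cj_normal] at h'
  linear_combination (ind (g * w * g⁻¹ ∈ A)) * h'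

/-- symmetry of `Dn` -/
theorem Dn_symm (L M : Subgroup G) (x w : G) : Dn L M x w = Dn M L w x := by
  unfold Dn
  rw [← sum_inv]
  refine Finset.sum_congr rfl (fun g _ => ?_)
  unfold al
  rw [← sum_conj g]
  refine Finset.sum_congr rfl (fun m _ => ?_)
  apply ind_congr
  simp only [inv_inv]
  have e : g⁻¹ * (g * m * g⁻¹) * g = m := by group
  rw [e]
  tauto

end Pool.MP_2bb03e_al.KG
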