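import Pool.Agent.Lib.MP_2bb03e_al.Induct

set_option autoImplicit false

universe u

open Pointwise

namespace Pool.MP_2bb03e_al.KG

section
variable {G : Type u} [Group G] [Fintype G]

theorem comm_sum (B : Subgroup G) :
    ∑ h : G, ∑ x : G, ind (x ∈ B ∧ h ∈ B ∧ h * x = x * h) =
      Nat.card (ConjClasses B) * Nat.card B := by
  classical
  rw [← Fintype.sum_prod_type' (f := fun h x : G => ind (x ∈ B ∧ h ∈ B ∧ h * x = x * h))]
  have h1 : (Nat.card { p : B × B // Commute p.1 p.2 } : ℚ) =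
      Nat.card (ConjClasses B) * Nat.card B := by
    exact_mod_cast card_comm_eq_card_conjClasses_mul_card B
  rw [← h1]
  have h2 : ∀ p : G × G, ind (p.2 ∈ B ∧ p.1 ∈ B ∧ p.1 * p.2 = p.2 * p.1) =
      if (p.2 ∈ B ∧ p.1 ∈ B ∧ p.1 * p.2 = p.2 * p.1) then (1:ℚ) else 0 := by
    intro p
    by_cases h : (p.2 ∈ B ∧ p.1 ∈ B ∧ p.1 * p.2 = p.2 * p.1)
    · rw [ind_pos h, if_pos h]
    · rw [ind_neg h, if_neg h]
  rw [Finset.sum_congr rfl (fun p _ => h2 p), Finset.sum_boole, ← Fintype.card_subtype,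
    ← Nat.card_eq_fintype_card]
  norm_cast
  refine Nat.card_congr ⟨fun p => ⟨(⟨p.1.1, p.2.2.1⟩, ⟨p.1.2, p.2.1⟩), ?_⟩,
    fun p => ⟨(p.1.1, p.1.2), p.1.2.2, p.1.1.2, ?_⟩, ?_, ?_⟩
  · apply Subtype.ext
    exact p.2.2.2
  · exact congrArg Subtype.val p.2
  · intro p; rfl
  · intro p; rfl

theorem comm_sum_top :
    ∑ h : G, ∑ x : G, ind (h * x = x * h) = Nat.card (ConjClasses G) * Nat.card G := by
  classical
  rw [← Fintype.sum_prod_type' (f := fun h x : G => ind (h * x = x * h))]
  have h1 : (Nat.card { p : G × G // Commute p.1 p.2 } : ℚ) =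
      Nat.card (ConjClasses G) * Nat.card G := by
    exact_mod_cast card_comm_eq_card_conjClasses_mul_card G
  rw [← h1]
  have h2 : ∀ p : G × G, ind (p.1 * p.2 = p.2 * p.1) =
      if (p.1 * p.2 = p.2 * p.1) then (1:ℚ) else 0 := by
    intro p
    by_cases h : (p.1 * p.2 = p.2 * p.1)
    · rw [ind_pos h, if_pos h]
    · rw [ind_neg h, if_neg h]
  rw [Finset.sum_congr rfl (fun p _ => h2 p), Finset.sum_boole, ← Fintype.card_subtype,
    ← Nat.card_eq_fintype_card]
  norm_cast

/-- total of `R` -/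
theorem R_total (B : Subgroup G) :
    ∑ x : G, R B (Subgroup.centralizer {x}) x =
      Nat.card G * (Nat.card (ConjClasses B) * Nat.card B) := by
  unfold R rr
  rw [Finset.sum_comm]
  have h1 : ∀ g : G, ∑ x : G, ∑ h : G, ind (g * x * g⁻¹ ∈ B ∧ h ∈ B ∧
      g⁻¹ * h * g ∈ Subgroup.centralizer {x}) = Nat.card (ConjClasses B) * Nat.card B := by
    intro g
    rw [← comm_sum B, Finset.sum_comm]
    refine Finset.sum_congr rfl (fun h _ => ?_)
    rw [← sum_conj g (fun x => ind (x ∈ B ∧ h ∈ B ∧ h * x = x * h))]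
    refine Finset.sum_congr rfl (fun x _ => ?_)
    apply ind_congr
    refine and_congr Iff.rfl (and_congr Iff.rfl ?_)
    rw [Subgroup.mem_centralizer_singleton_iff]
    constructor
    · intro e
      calc h * (g * x * g⁻¹) = g * (g⁻¹ * h * g * x) * g⁻¹ := by group
        _ = g * (x * (g⁻¹ * h * g)) * g⁻¹ := by rw [e]
        _ = _ := by group
    · intro e
      calc g⁻¹ * h * g * x = g⁻¹ * (h * (g * x * g⁻¹)) * g := by group
        _ = g⁻¹ * ((g * x * g⁻¹) * h) * g := by rw [e]
        _ = _ := by group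
  rw [Finset.sum_congr rfl (fun g _ => h1 g), Finset.sum_const, nsmul_eq_mul,
    Finset.card_univ, ← Nat.card_eq_fintype_card]

/-- total of `Dn` over all pairs (coprime order) -/
theorem Dn_total (a b : ℕ) (hab : a.Coprime b) (hG : a * b = Nat.card G) :
    Nat.card G * (Nat.card (ConjClasses G) * Nat.card G) ≤
    ∑ x : G, ∑ w : G, ind ((orderOf x).Coprime a ∧ (orderOf w).Coprime b) *
      Dn (Subgroup.centralizer {x}) (Subgroup.centralizer {w}) x w := by
  classical
  -- rewrite the sum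
  let F : G × G → ℚ := fun p => ∑ m : G, ind ((orderOf p.1).Coprime a ∧ (orderOf p.2).Coprime b ∧
    p.1 * p.2 = p.2 * p.1 ∧ m * p.1 = p.1 * m ∧ m * p.2 = p.2 * m)
  have h1 : ∑ x : G, ∑ w : G, ind ((orderOf x).Coprime a ∧ (orderOf w).Coprime b) *
      Dn (Subgroup.centralizer {x}) (Subgroup.centralizer {w}) x w =
      Nat.card G * ∑ p : G × G, F p := by
    unfold Dn
    simp_rw [Finset.mul_sum]
    have h2 : ∀ x g : G, ∑ w : G, ind ((orderOf x).Coprime a ∧ (orderOf w).Coprime b) *
        al (Subgroup.centralizer {x}) (Subgroup.centralizer {w}) x w g =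
        ∑ w : G, F (x, w) := by
      intro x g
      rw [← sum_conj' g]
      refine Finset.sum_congr rfl (fun w _ => ?_)
      unfold al
      rw [← sum_conj' g, Finset.mul_sum]
      refine Finset.sum_congr rfl (fun m _ => ?_)
      rw [← ind_and]
      apply ind_congr
      rw [orderOf_conj_eq']
      simp only [Subgroup.mem_centralizer_singleton_iff]
      have e1 : g * (g⁻¹ * w * g) * g⁻¹ = w := by group
      have e2 : g * (g⁻¹ * m * g) * g⁻¹ = m := by group
      have conj_comm : ∀ u v : G, (g⁻¹ * u * g) * (g⁻¹ * v * g) = (g⁻¹ * v * g) * (g⁻¹ * u * g) ↔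
          u * v = v * u := by
        intro u v
        have e3 : (g⁻¹ * u * g) * (g⁻¹ * v * g) = g⁻¹ * (u * v) * g := by group
        have e4 : (g⁻¹ * v * g) * (g⁻¹ * u * g) = g⁻¹ * (v * u) * g := by group
        rw [e3, e4]
        constructor
        · intro h
          exact mul_left_cancel (mul_right_cancel h)
        · intro h; rw [h]
      rw [e1, e2, conj_comm, conj_comm]
      constructor
      · rintro ⟨⟨c1, c2⟩, h1, h2, h3, h4⟩
        exact ⟨c1, c2, h3, h4, h1⟩
      · rintro ⟨c1, c2, h3, h4, h1⟩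
        exact ⟨⟨c1, c2⟩, h1, h3.symm, h3, h4⟩
    rw [Fintype.sum_prod_type]
    refine Finset.sum_congr rfl (fun x _ => ?_)
    rw [← Finset.mul_sum, Finset.sum_comm, Finset.sum_congr rfl (fun g _ => h2 x g),
      Finset.sum_const, nsmul_eq_mul, Finset.card_univ, ← Nat.card_eq_fintype_card]
  rw [h1]
  refine mul_le_mul_of_nonneg_left ?_ (Nat.cast_nonneg _)
  rw [← comm_sum_top]
  obtain ⟨e, he1, he2⟩ := Nat.chineseRemainder hab 0 1
  obtain ⟨f, hf1, hf2⟩ := Nat.chineseRemainder hab 1 0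
  have hef : e + f ≡ 1 [MOD Nat.card G] := by
    rw [← hG]
    refine (Nat.modEq_and_modEq_iff_modEq_mul hab).mp ⟨?_, ?_⟩
    · simpa using he1.add hf1
    · simpa using he2.add hf2
  have hdec : ∀ u : G, u ^ e * u ^ f = u := by
    intro u
    rw [← pow_add]
    have h3 : e + f ≡ 1 [MOD orderOf u] := hef.of_dvd (orderOf_dvd_natCard u)
    have := (pow_eq_pow_iff_modEq (x := u) (n := e + f) (m := 1)).mpr h3
    rwa [pow_one] at this
  have hae : a ∣ e := (Nat.modEq_zero_iff_dvd).mp he1
  have hbf : b ∣ f := (Nat.modEq_zero_iff_dvd).mp hf2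
  have hue : ∀ u : G, (orderOf (u ^ e)).Coprime a := by
    intro u
    refine Nat.Coprime.coprime_dvd_left ?_ hab.symm
    apply orderOf_dvd_of_pow_eq_one
    rw [← pow_mul]
    apply orderOf_dvd_iff_pow_eq_one.mp
    refine (orderOf_dvd_natCard u).trans ?_
    rw [← hG]
    exact Nat.mul_dvd_mul_right hae b
  have huf : ∀ u : G, (orderOf (u ^ f)).Coprime b := by
    intro u
    refine Nat.Coprime.coprime_dvd_left ?_ hab
    apply orderOf_dvd_of_pow_eq_one
    rw [← pow_mul]
    apply orderOf_dvd_iff_pow_eq_one.mp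
    refine (orderOf_dvd_natCard u).trans ?_
    rw [← hG, mul_comm]
    exact Nat.mul_dvd_mul_right hbf a
  let φ : G → G × G := fun u => (u ^ e, u ^ f)
  have hφ : Function.Injective φ := by
    intro u v huv
    have h3 := congrArg Prod.fst huv
    have h4 := congrArg Prod.snd huv
    change u ^ e = v ^ e at h3
    change u ^ f = v ^ f at h4
    rw [← hdec u, ← hdec v, h3, h4]
  have hF : ∀ p, 0 ≤ F p := fun p => Finset.sum_nonneg (fun _ _ => ind_nonneg _)
  have h5 : ∀ u : G, ∑ m : G, ind (m * u = u * m) ≤ F (φ u) := by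
    intro u
    refine Finset.sum_le_sum (fun m _ => ?_)
    apply ind_mono
    intro hm
    have hc : Commute m u := hm
    refine ⟨hue u, huf u, ?_, ?_, ?_⟩
    · change u ^ e * u ^ f = u ^ f * u ^ e
      rw [← pow_add, ← pow_add, add_comm]
    · exact hc.pow_right e
    · exact hc.pow_right f
  rw [Finset.sum_comm]
  calc ∑ u : G, ∑ m : G, ind (m * u = u * m) ≤ ∑ u : G, F (φ u) :=
        Finset.sum_le_sum (fun u _ => h5 u)
    _ = ∑ p ∈ Finset.univ.image φ, F p := by
        rw [Finset.sum_image (fun x _ y _ h => hφ h)]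
    _ ≤ ∑ p : G × G, F p :=
        Finset.sum_le_sum_of_subset_of_nonneg (Finset.subset_univ _) (fun p _ _ => hF p)

omit [Fintype G] in
theorem card_mul_of_fact (A B : Subgroup G) (hcop : (Nat.card A).Coprime (Nat.card B))
    (hAB : ∀ g : G, ∃ a ∈ A, ∃ b ∈ B, g = a * b) : Nat.card A * Nat.card B = Nat.card G := by
  rw [← Nat.card_prod]
  refine Nat.card_eq_of_bijective (fun p : A × B => (p.1 : G) * (p.2 : G)) ⟨?_, ?_⟩
  · rintro ⟨a, b⟩ ⟨a', b'⟩ h
    change (a : G) * b = a' * b' at h
    have h1 : ((a' : G)⁻¹ * a) ∈ A ⊓ B := by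
      refine ⟨A.mul_mem (A.inv_mem a'.2) a.2, ?_⟩
      have : (a' : G)⁻¹ * a = b' * (b : G)⁻¹ := by
        rw [inv_mul_eq_iff_eq_mul, ← mul_assoc, ← h]; group
      rw [this]
      exact B.mul_mem b'.2 (B.inv_mem b.2)
    rw [(Subgroup.disjoint_of_coprime_natCard hcop).eq_bot, Subgroup.mem_bot] at h1
    have h2 : (a : G) = a' := by
      rw [inv_mul_eq_one] at h1; exact h1.symm
    have h3 : (b : G) = b' := by
      rw [h2] at h; exact mul_left_cancel h
    exact Prod.ext (Subtype.ext h2) (Subtype.ext h3)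
  · intro g
    obtain ⟨a, ha, b, hb, rfl⟩ := hAB g
    exact ⟨(⟨a, ha⟩, ⟨b, hb⟩), rfl⟩

theorem main_piSep (A B : Subgroup G) (hcop : (Nat.card A).Coprime (Nat.card B))
    (hcard : Nat.card A * Nat.card B = Nat.card G)
    (hsep : PiSep G (Nat.card A) (Nat.card B)) :
    Nat.card (ConjClasses G) ≤ Nat.card (ConjClasses A) * Nat.card (ConjClasses B) := by
  have h1 := Dn_total (G := G) (Nat.card A) (Nat.card B) hcop hcard
  have h2 : ∀ x w : G, ind ((orderOf x).Coprime (Nat.card A) ∧ (orderOf w).Coprime (Nat.card B)) *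
      ((Nat.card G : ℚ) * Dn (Subgroup.centralizer {x}) (Subgroup.centralizer {w}) x w) ≤
      R B (Subgroup.centralizer {x}) x * R A (Subgroup.centralizer {w}) w := by
    intro x w
    by_cases hc : (orderOf x).Coprime (Nat.card A) ∧ (orderOf w).Coprime (Nat.card B)
    · rw [ind_pos hc, one_mul]
      exact stmt_all (Nat.card G) G A B _ _ x w le_rfl hcard hcop hsep
        (fun l hl => Subgroup.mem_centralizer_singleton_iff.mp hl)
        (fun l hl => Subgroup.mem_centralizer_singleton_iff.mp hl) hc.1 hc.2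
    · rw [ind_neg hc, zero_mul]
      exact mul_nonneg (R_nonneg _ _ _) (R_nonneg _ _ _)
  have h3 : (Nat.card G : ℚ) * ∑ x : G, ∑ w : G,
      ind ((orderOf x).Coprime (Nat.card A) ∧ (orderOf w).Coprime (Nat.card B)) *
      Dn (Subgroup.centralizer {x}) (Subgroup.centralizer {w}) x w ≤
      (∑ x : G, R B (Subgroup.centralizer {x}) x) *
        (∑ w : G, R A (Subgroup.centralizer {w}) w) := by
    rw [Finset.sum_mul_sum, Finset.mul_sum]
    refine Finset.sum_le_sum (fun x _ => ?_)
    rw [Finset.mul_sum]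
    refine Finset.sum_le_sum (fun w _ => ?_)
    refine le_trans (le_of_eq ?_) (h2 x w)
    ring
  rw [R_total, R_total] at h3
  have hpos : (0 : ℚ) < Nat.card G := by exact_mod_cast Nat.card_pos
  have hcard' : (Nat.card A : ℚ) * Nat.card B = Nat.card G := by exact_mod_cast hcard
  have h4 : (Nat.card G : ℚ) * (Nat.card G * (Nat.card (ConjClasses G) * Nat.card G)) ≤
      (Nat.card G * (Nat.card (ConjClasses B) * Nat.card B)) *
        (Nat.card G * (Nat.card (ConjClasses A) * Nat.card A)) :=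
    (mul_le_mul_of_nonneg_left h1 hpos.le).trans h3
  have h5 : (Nat.card G : ℚ) ^ 3 * Nat.card (ConjClasses G) ≤
      (Nat.card G : ℚ) ^ 3 * (Nat.card (ConjClasses A) * Nat.card (ConjClasses B)) := by
    calc _ = (Nat.card G : ℚ) * (Nat.card G * (Nat.card (ConjClasses G) * Nat.card G)) := by ring
      _ ≤ _ := h4
      _ = (Nat.card G : ℚ) ^ 2 * ((Nat.card A : ℚ) * Nat.card B) *
          (Nat.card (ConjClasses A) * Nat.card (ConjClasses B)) := by ring
      _ = _ := by rw [hcard']; ring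
  have h6 := le_of_mul_le_mul_left h5 (by positivity)
  exact_mod_cast h6

end

/-- finite solvable groups satisfy `PiSep` for coprime numbers -/
theorem piSep_of_solvable (G : Type u) [Group G] [Finite G] (hG : Group.IsSolvable G) (a b : ℕ)
    (hab : a.Coprime b) : PiSep G a b := by
  intro N hN hT
  -- the quotient is nontrivial and solvable
  have hsurj : Function.Surjective (QuotientGroup.mk' N) := QuotientGroup.mk'_surjective N
  have hQs : Group.IsSolvable (G ⧸ N) := inferInstance
  have hex : ∃ n, derivedSeries (G ⧸ N) n = ⊥ := hQs.solvable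
  classical
  set n := Nat.find hex with hn
  have hn0 : n ≠ 0 := by
    intro h0
    have h1 := Nat.find_spec hex
    rw [← hn, h0, derivedSeries_zero] at h1
    apply hT
    have h2 : (⊤ : Subgroup (G ⧸ N)).comap (QuotientGroup.mk' N) =
        (⊥ : Subgroup (G ⧸ N)).comap (QuotientGroup.mk' N) := by rw [h1]
    rw [Subgroup.comap_top, MonoidHom.comap_bot, QuotientGroup.ker_mk'] at h2
    exact h2.symm
  obtain ⟨m, hm⟩ := Nat.exists_eq_succ_of_ne_zero hn0
  set D := derivedSeries (G ⧸ N) m with hD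
  have hDne : D ≠ ⊥ := by
    have := Nat.find_min hex (m := m) (by rw [← hn, hm]; exact Nat.lt_succ_self m)
    exact this
  have hDab : ⁅D, D⁆ = ⊥ := by
    have h1 := Nat.find_spec hex
    rw [← hn, hm, derivedSeries_succ] at h1
    exact h1
  have hDcomm : ∀ x ∈ D, ∀ y ∈ D, x * y = y * x := by
    intro x hx y hy
    exact ((Subgroup.mem_centralizer_iff.mp
      (Subgroup.commutator_eq_bot_iff_le_centralizer.mp hDab hx)) y hy).symm
  have hDn : D.Normal := derivedSeries_normal (G ⧸ N) m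
  have hDc : Nat.card D ≠ 1 := by
    rw [Ne, Subgroup.card_eq_one]; exact hDne
  obtain ⟨p, hp, hpD⟩ := Nat.exists_prime_and_dvd hDc
  have : Fact p.Prime := ⟨hp⟩
  obtain ⟨d, hd⟩ := exists_prime_orderOf_dvd_card' (G := D) p hpD
  -- elements of exponent `p`
  let P : Subgroup (G ⧸ N) :=
    { carrier := {x | x ∈ D ∧ x ^ p = 1}
      one_mem' := ⟨D.one_mem, one_pow p⟩
      mul_mem' := by
        rintro x y ⟨hx, hx1⟩ ⟨hy, hy1⟩
        refine ⟨D.mul_mem hx hy, ?_⟩
        have : Commute x y := hDcomm x hx y hy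
        rw [this.mul_pow, hx1, hy1, one_mul]
      inv_mem' := by
        rintro x ⟨hx, hx1⟩
        exact ⟨D.inv_mem hx, by rw [inv_pow, hx1, inv_one]⟩ }
  have hPn : P.Normal := by
    constructor
    rintro x ⟨hx, hx1⟩ g
    exact ⟨hDn.conj_mem x hx g, by rw [conj_pow, hx1]; group⟩
  have hPg : IsPGroup p P := by
    intro x
    refine ⟨1, ?_⟩
    apply Subtype.ext
    rw [pow_one]
    exact x.2.2
  obtain ⟨k, hk⟩ := IsPGroup.iff_card.mp hPg
  have hPne : P ≠ ⊥ := by
    intro h0
    have h1 : (d : G ⧸ N) ∈ P := by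
      refine ⟨d.2, ?_⟩
      have : d ^ p = 1 := by rw [← hd]; exact pow_orderOf_eq_one d
      exact congrArg Subtype.val this
    rw [h0, Subgroup.mem_bot] at h1
    have h2 : d = 1 := Subtype.ext h1
    rw [h2, orderOf_one] at hd
    exact hp.one_lt.ne hd
  refine ⟨P.comap (QuotientGroup.mk' N), hPn.comap _, lt_of_le_of_ne ?_ ?_, ?_⟩
  · intro x hx
    rw [Subgroup.mem_comap]
    have : QuotientGroup.mk' N x = 1 := (QuotientGroup.eq_one_iff x).mpr hx
    rw [this]; exact P.one_mem
  · intro h0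
    apply hPne
    have h1 : (P.comap (QuotientGroup.mk' N)).map (QuotientGroup.mk' N) = P :=
      Subgroup.map_comap_eq_self_of_surjective hsurj P
    rw [← h1, ← h0, QuotientGroup.map_mk'_self]
  · have h1 := Subgroup.relIndex_ker (P.comap (QuotientGroup.mk' N)) (QuotientGroup.mk' N)
    rw [QuotientGroup.ker_mk', Subgroup.map_comap_eq_self_of_surjective hsurj, hk] at h1
    rw [h1]
    by_cases hpa : p ∣ a
    · right
      apply Nat.Coprime.pow_left
      rw [Nat.Prime.coprime_iff_not_dvd hp]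
      intro hpb
      exact hp.one_lt.ne' (Nat.eq_one_of_dvd_coprimes hab hpa hpb)
    · left
      apply Nat.Coprime.pow_left
      rwa [Nat.Prime.coprime_iff_not_dvd hp]

end Pool.MP_2bb03e_al.KG
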