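import Mathlib

set_option autoImplicit false

namespace Pool.MP_2bb03e_al.KG

open Classical in
/-- the indicator of a proposition, as a rational number -/
noncomputable def ind (P : Prop) : ℚ := if P then 1 else 0

theorem ind_pos {P : Prop} (h : P) : ind P = 1 := by simp [ind, h]

theorem ind_neg {P : Prop} (h : ¬ P) : ind P = 0 := by simp [ind, h]

theorem ind_nonneg (P : Prop) : 0 ≤ ind P := by
  by_cases h : P
  · rw [ind_pos h]; norm_num
  · rw [ind_neg h]

theorem ind_mono {P Q : Prop} (h : P → Q) : ind P ≤ ind Q := by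
  by_cases hP : P
  · rw [ind_pos hP, ind_pos (h hP)]
  · rw [ind_neg hP]; exact ind_nonneg Q

theorem ind_congr {P Q : Prop} (h : P ↔ Q) : ind P = ind Q := by
  rw [propext h]

theorem ind_and (P Q : Prop) : ind (P ∧ Q) = ind P * ind Q := by
  by_cases hP : P
  · by_cases hQ : Q
    · rw [ind_pos hP, ind_pos hQ, ind_pos ⟨hP, hQ⟩]; norm_num
    · rw [ind_neg hQ, ind_neg (fun h => hQ h.2)]; ring
  · rw [ind_neg hP, ind_neg (fun h => hP h.1)]; ring

/-- `ind P * a` only depends on `a` when `P` holds -/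
theorem ind_mul_congr {P : Prop} {a b : ℚ} (h : P → a = b) : ind P * a = ind P * b := by
  by_cases hP : P
  · rw [h hP]
  · rw [ind_neg hP]; ring

theorem ind_mul_mono {P : Prop} {a b : ℚ} (h : P → a ≤ b) : ind P * a ≤ ind P * b := by
  by_cases hP : P
  · rw [ind_pos hP, one_mul, one_mul]; exact h hP
  · rw [ind_neg hP]; simp

variable {G : Type*} [Group G] [Fintype G]

theorem sum_ind_mem (H : Subgroup G) : ∑ g : G, ind (g ∈ H) = (Nat.card H : ℚ) := by
  classical
  simp only [ind]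
  rw [Finset.sum_boole]
  rw [Nat.card_eq_fintype_card, Fintype.card_subtype]

theorem sum_mul_left (a : G) (F : G → ℚ) : ∑ g : G, F (a * g) = ∑ g : G, F g :=
  Equiv.sum_comp (Equiv.mulLeft a) F

theorem sum_mul_right (a : G) (F : G → ℚ) : ∑ g : G, F (g * a) = ∑ g : G, F g :=
  Equiv.sum_comp (Equiv.mulRight a) F

theorem sum_conj (a : G) (F : G → ℚ) : ∑ g : G, F (a * g * a⁻¹) = ∑ g : G, F g :=
  Equiv.sum_comp (MulAut.conj a).toEquiv F

theorem sum_conj' (a : G) (F : G → ℚ) : ∑ g : G, F (a⁻¹ * g * a) = ∑ g : G, F g := by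
  have := sum_conj a⁻¹ F
  simpa using this

theorem sum_inv (F : G → ℚ) : ∑ g : G, F g⁻¹ = ∑ g : G, F g :=
  Equiv.sum_comp (Equiv.inv G) F

end Pool.MP_2bb03e_al.KG
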