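import Pool.Agent.Lib.MP_2bb03e_al.Cards

set_option autoImplicit false

universe u

open Pointwise

namespace Pool.MP_2bb03e_al.KG

variable {G : Type u} [Group G] [Fintype G]

theorem rr_smul (B L N : Subgroup G) [hN : N.Normal] (hB : N ≤ B) (hL : N ≤ L) (x g n : G)
    (hn : n ∈ N) : rr B L x (n * g) = rr B L x g := by
  unfold rr
  refine Finset.sum_congr rfl (fun h _ => ?_)
  apply ind_congr
  refine and_congr ?_ (and_congr Iff.rfl ?_)
  · have hnB := hB hn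
    constructor
    · intro h1
      have := B.mul_mem (B.mul_mem (B.inv_mem hnB) h1) hnB
      have e : n⁻¹ * (n * g * x * (n * g)⁻¹) * n = g * x * g⁻¹ := by group
      rwa [e] at this
    · intro h1
      have := B.mul_mem (B.mul_mem hnB h1) (B.inv_mem hnB)
      have e : n * (g * x * g⁻¹) * n⁻¹ = n * g * x * (n * g)⁻¹ := by group
      rwa [e] at this
  · have hn1 : g⁻¹ * n * g ∈ L := by
      apply hL
      have := hN.conj_mem n hn g⁻¹
      rwa [inv_inv] at this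
    constructor
    · intro h1
      have := L.mul_mem (L.mul_mem hn1 h1) (L.inv_mem hn1)
      have e : (g⁻¹ * n * g) * ((n * g)⁻¹ * h * (n * g)) * (g⁻¹ * n * g)⁻¹ = g⁻¹ * h * g := by
        group
      rwa [e] at this
    · intro h1
      have := L.mul_mem (L.mul_mem (L.inv_mem hn1) h1) hn1
      have e : (g⁻¹ * n * g)⁻¹ * (g⁻¹ * h * g) * (g⁻¹ * n * g) = (n * g)⁻¹ * h * (n * g) := by
        group
      rwa [e] at this

theorem stepC_pt1 (B L N : Subgroup G) [hN : N.Normal] (x : G)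
    (hNB : (Nat.card B).Coprime (Nat.card N))
    {ι : Type u} [Fintype ι] (X : ι → Subgroup G) (c : ι → ℚ)
    (hNX : ∀ i, N ⊓ Subgroup.centralizer {x} ≤ X i)
    (hXx : ∀ i, X i ≤ Subgroup.centralizer {x})
    (hle : ∀ h : G, (orderOf h).Coprime (Nat.card (N ⊓ Subgroup.centralizer {x} : Subgroup G)) →
        Nat.card (N ⊓ Subgroup.centralizer {x} : Subgroup G) * ∑ i, c i * ind (h ∈ X i) ≤
          cnt (N ⊓ Subgroup.centralizer {x}) L {h})
    (g : G) (hg : g * x * g⁻¹ ∈ B) :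
    (Nat.card (N ⊓ Subgroup.centralizer {x} : Subgroup G) : ℚ) *
        ∑ i, c i * rr (B ⊔ N) (X i ⊔ N) x g ≤
      Nat.card N * ∑ n : G, ind (n ∈ N) * rr B L x (n * g) := by
  set N₀ := N ⊓ Subgroup.centralizer {x} with hN₀
  have hBN : N ⊓ B = ⊥ := by
    rw [inf_comm]; exact (Subgroup.disjoint_of_coprime_natCard hNB).eq_bot
  have hcB : ∀ h ∈ B, (orderOf h).Coprime (Nat.card N₀) := by
    intro h hh
    exact Nat.Coprime.coprime_dvd_left (Subgroup.orderOf_dvd_natCard B hh)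
      (Nat.Coprime.coprime_dvd_right (Subgroup.card_dvd_of_le inf_le_left) hNB)
  -- the key membership
  have hkey : ∀ i, ∀ h ∈ B, g⁻¹ * h * g ∈ (X i ⊔ N : Subgroup G) → g⁻¹ * h * g ∈ X i := by
    intro i h hh hu
    obtain ⟨z, hz, n, hn, e⟩ := mem_sup_normal (X i) N _ hu
    have hzx : z * x = x * z := Subgroup.mem_centralizer_singleton_iff.mp (hXx i hz)
    have hcomm : h * (g * x * g⁻¹) * h⁻¹ * (g * x * g⁻¹)⁻¹ ∈ N ⊓ B := by
      refine ⟨?_, ?_⟩
      · have h1 : h = g * (z * n) * g⁻¹ := by rw [← e]; group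
        have h2 : h * (g * x * g⁻¹) * h⁻¹ * (g * x * g⁻¹)⁻¹ =
            (g * z) * (n * (x * n⁻¹ * x⁻¹)) * (g * z)⁻¹ := by
          rw [h1]
          have h3 : z⁻¹ * x⁻¹ = x⁻¹ * z⁻¹ := by
            rw [← mul_inv_rev, ← mul_inv_rev, hzx]
          calc g * (z * n) * g⁻¹ * (g * x * g⁻¹) * (g * (z * n) * g⁻¹)⁻¹ * (g * x * g⁻¹)⁻¹
              = g * z * n * x * n⁻¹ * (z⁻¹ * x⁻¹) * g⁻¹ := by group
            _ = g * z * n * x * n⁻¹ * (x⁻¹ * z⁻¹) * g⁻¹ := by rw [h3]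
            _ = _ := by group
        rw [h2]
        exact hN.conj_mem _ (N.mul_mem hn (hN.conj_mem _ (N.inv_mem hn) x)) _
      · exact B.mul_mem (B.mul_mem (B.mul_mem hh hg) (B.inv_mem hh)) (B.inv_mem hg)
    rw [hBN, Subgroup.mem_bot] at hcomm
    have h4 : h * (g * x * g⁻¹) = (g * x * g⁻¹) * h := by
      have := mul_inv_eq_one.mp hcomm
      exact mul_inv_eq_iff_eq_mul.mp this
    have h5 : (g⁻¹ * h * g) * x = x * (g⁻¹ * h * g) := by
      calc (g⁻¹ * h * g) * x = g⁻¹ * (h * (g * x * g⁻¹)) * g := by group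
        _ = g⁻¹ * ((g * x * g⁻¹) * h) * g := by rw [h4]
        _ = _ := by group
    have h6 : n * x = x * n := by
      have h7 : n = z⁻¹ * (g⁻¹ * h * g) := by rw [e]; group
      have h8 : z⁻¹ * x = x * z⁻¹ := by
        rw [inv_mul_eq_iff_eq_mul, ← mul_assoc, hzx]; group
      rw [h7, mul_assoc, h5, ← mul_assoc, h8]; group
    rw [e]
    exact (X i).mul_mem hz (hNX i ⟨hn, Subgroup.mem_centralizer_singleton_iff.mpr h6⟩)
  -- LHS
  have hL1 : ∀ i, rr (B ⊔ N) (X i ⊔ N) x g =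
      Nat.card N * ∑ h : G, ind (h ∈ B) * ind (g⁻¹ * h * g ∈ X i) := by
    intro i
    rw [rr_eq, ind_pos (Subgroup.mem_sup_left hg), one_mul]
    have h1 := card_inf_sup (cj g (X i ⊔ N)) B N (le_cj_normal g (X i ⊔ N) N le_sup_right)
    rw [hBN] at h1
    have h0 : Nat.card (⊥ : Subgroup G) = 1 := by simp
    rw [h0, mul_one] at h1
    have h2 : ((B ⊔ N) ⊓ cj g (X i ⊔ N) : Subgroup G) = cj g (X i ⊔ N) ⊓ (B ⊔ N) := inf_comm _ _
    rw [h2, h1]
    push_cast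
    rw [← sum_ind_mem (cj g (X i ⊔ N) ⊓ B)]
    congr 1
    refine Finset.sum_congr rfl (fun h _ => ?_)
    rw [← ind_and]
    apply ind_congr
    rw [Subgroup.mem_inf, mem_cj]
    constructor
    · rintro ⟨h1, h2⟩
      exact ⟨h2, hkey i h h2 h1⟩
    · rintro ⟨h1, h2⟩
      exact ⟨Subgroup.mem_sup_left h2, h1⟩
  have hL2 : (Nat.card N₀ : ℚ) * ∑ i, c i * rr (B ⊔ N) (X i ⊔ N) x g =
      Nat.card N * ∑ h : G, ind (h ∈ B) * (Nat.card N₀ * ∑ i, c i * ind (g⁻¹ * h * g ∈ X i)) := by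
    simp_rw [hL1, Finset.mul_sum]
    rw [Finset.sum_comm]
    refine Finset.sum_congr rfl (fun h _ => ?_)
    refine Finset.sum_congr rfl (fun i _ => ?_)
    ring
  have hL3 : (Nat.card N₀ : ℚ) * ∑ i, c i * rr (B ⊔ N) (X i ⊔ N) x g ≤
      Nat.card N * ∑ h : G, ind (h ∈ B) * cnt N₀ L {g⁻¹ * h * g} := by
    rw [hL2]
    refine mul_le_mul_of_nonneg_left (Finset.sum_le_sum (fun h _ => ?_)) (Nat.cast_nonneg _)
    refine ind_mul_mono (fun hh => hle _ ?_)
    rw [orderOf_conj_eq']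
    exact hcB h hh
  refine hL3.trans (mul_le_mul_of_nonneg_left ?_ (Nat.cast_nonneg _))
  -- RHS
  have hR : ∑ n : G, ind (n ∈ N) * rr B L x (n * g) =
      ∑ n : G, ind (g * n * g⁻¹ ∈ N) * rr B L x (g * n) := by
    rw [← sum_conj g (fun n => ind (n ∈ N) * rr B L x (n * g))]
    refine Finset.sum_congr rfl (fun n _ => ?_)
    congr 2
    group
  rw [hR]
  unfold cnt rr
  simp_rw [Finset.mul_sum]
  rw [Finset.sum_comm]
  refine Finset.sum_le_sum (fun n _ => Finset.sum_le_sum (fun h _ => ?_))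
  rw [← ind_and, ← ind_and]
  apply ind_mono
  rintro ⟨hh, hn, h1⟩
  have h2 := h1 _ (Set.mem_singleton _)
  have hnx : n * x = x * n := Subgroup.mem_centralizer_singleton_iff.mp hn.2
  refine ⟨hN.conj_mem n hn.1 g, ?_, hh, ?_⟩
  · have e : g * n * x * (g * n)⁻¹ = g * x * g⁻¹ := by
      calc g * n * x * (g * n)⁻¹ = g * (n * x) * n⁻¹ * g⁻¹ := by group
        _ = g * (x * n) * n⁻¹ * g⁻¹ := by rw [hnx]
        _ = _ := by group
    rw [e]; exact hg
  · have e : (g * n)⁻¹ * h * (g * n) = n⁻¹ * (g⁻¹ * h * g) * n := by group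
    rw [e]; exact h2

theorem stepC_pt (B L N : Subgroup G) [hN : N.Normal] (x : G)
    (hNB : (Nat.card B).Coprime (Nat.card N)) (cx : (orderOf x).Coprime (Nat.card N))
    {ι : Type u} [Fintype ι] (X : ι → Subgroup G) (c : ι → ℚ)
    (hNX : ∀ i, N ⊓ Subgroup.centralizer {x} ≤ X i)
    (hXx : ∀ i, X i ≤ Subgroup.centralizer {x})
    (hle : ∀ h : G, (orderOf h).Coprime (Nat.card (N ⊓ Subgroup.centralizer {x} : Subgroup G)) →
        Nat.card (N ⊓ Subgroup.centralizer {x} : Subgroup G) * ∑ i, c i * ind (h ∈ X i) ≤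
          cnt (N ⊓ Subgroup.centralizer {x}) L {h})
    (g : G) :
    (Nat.card (N ⊓ Subgroup.centralizer {x} : Subgroup G) : ℚ) *
        ∑ i, c i * rr (B ⊔ N) (X i ⊔ N) x g ≤
      Nat.card N * ∑ n : G, ind (n ∈ N) * rr B L x (n * g) := by
  by_cases hg : g * x * g⁻¹ ∈ (N ⊔ B : Subgroup G)
  · obtain ⟨n₁, hn₁, h1⟩ := conj_into N B (by
      rw [Subgroup.normalizer_eq_top]; exact le_top) (g * x * g⁻¹) hg (by
        rw [orderOf_conj_eq]; exact cx)
    have h2 : (n₁⁻¹ * g) * x * (n₁⁻¹ * g)⁻¹ ∈ B := by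
      have e : (n₁⁻¹ * g) * x * (n₁⁻¹ * g)⁻¹ = n₁⁻¹ * (g * x * g⁻¹) * n₁ := by group
      rwa [e]
    have h3 := stepC_pt1 B L N x hNB X c hNX hXx hle (n₁⁻¹ * g) h2
    have e1 : ∀ i, rr (B ⊔ N) (X i ⊔ N) x (n₁⁻¹ * g) = rr (B ⊔ N) (X i ⊔ N) x g := fun i =>
      rr_smul (B ⊔ N) (X i ⊔ N) N le_sup_right le_sup_right x g n₁⁻¹ (N.inv_mem hn₁)
    have e2 : ∑ n : G, ind (n ∈ N) * rr B L x (n * (n₁⁻¹ * g)) =
        ∑ n : G, ind (n ∈ N) * rr B L x (n * g) := by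
      rw [← sum_mul_right n₁⁻¹ (fun n => ind (n ∈ N) * rr B L x (n * g))]
      refine Finset.sum_congr rfl (fun n _ => ?_)
      rw [mul_assoc n]
      congr 1
      apply ind_congr
      exact (N.mul_mem_cancel_right (N.inv_mem hn₁)).symm
    simp_rw [e1, e2] at h3
    exact h3
  · have h0 : ∀ i, rr (B ⊔ N) (X i ⊔ N) x g = 0 := by
      intro i
      rw [rr_eq, ind_neg, zero_mul]
      rwa [sup_comm]
    simp_rw [h0, mul_zero, Finset.sum_const_zero, mul_zero]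
    refine mul_nonneg (Nat.cast_nonneg _) (Finset.sum_nonneg (fun n _ => ?_))
    exact mul_nonneg (ind_nonneg _) (rr_nonneg _ _ _ _)

/-- step (c) -/
theorem stepC (B L N : Subgroup G) [hN : N.Normal] (x : G)
    (hNB : (Nat.card B).Coprime (Nat.card N)) (cx : (orderOf x).Coprime (Nat.card N))
    {ι : Type u} [Fintype ι] (X : ι → Subgroup G) (c : ι → ℚ)
    (hNX : ∀ i, N ⊓ Subgroup.centralizer {x} ≤ X i)
    (hXx : ∀ i, X i ≤ Subgroup.centralizer {x})
    (hle : ∀ h : G, (orderOf h).Coprime (Nat.card (N ⊓ Subgroup.centralizer {x} : Subgroup G)) →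
        Nat.card (N ⊓ Subgroup.centralizer {x} : Subgroup G) * ∑ i, c i * ind (h ∈ X i) ≤
          cnt (N ⊓ Subgroup.centralizer {x}) L {h}) :
    (Nat.card (N ⊓ Subgroup.centralizer {x} : Subgroup G) : ℚ) *
        ∑ i, c i * R (B ⊔ N) (X i ⊔ N) x ≤
      Nat.card N * (Nat.card N * R B L x) := by
  have h := Finset.sum_le_sum (s := Finset.univ)
    (fun (g : G) _ => stepC_pt B L N x hNB cx X c hNX hXx hle g)
  rw [← Finset.mul_sum, ← Finset.mul_sum, sum_avg] at h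
  refine le_trans (le_of_eq ?_) h
  congr 1
  rw [Finset.sum_comm]
  refine Finset.sum_congr rfl (fun i _ => ?_)
  unfold R
  rw [Finset.mul_sum]

end Pool.MP_2bb03e_al.KG
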