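import Pool.Agent.Lib.MP_2bb03e_al.StepA
import Pool.Agent.Lib.MP_2bb03e_al.StepC

set_option autoImplicit false

universe u

open Pointwise

namespace Pool.MP_2bb03e_al.KG

theorem step {G : Type u} [Group G] [Fintype G] (A B L M N : Subgroup G) [hN : N.Normal] (x w : G)
    (hNA : N ≤ A) (hNB : (Nat.card B).Coprime (Nat.card N))
    (cx : (orderOf x).Coprime (Nat.card N))
    (hL : ∀ l ∈ L, l * x = x * l) (hM : ∀ m ∈ M, m * w = w * m)
    (IH : ∀ X : Subgroup G, X ≤ Subgroup.centralizer {x} →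
      (Nat.card G : ℚ) * Nat.card N * Dn (X ⊔ N) (M ⊔ N) x w ≤
        R (B ⊔ N) (X ⊔ N) x * R A (M ⊔ N) w) :
    (Nat.card G : ℚ) * Dn L M x w ≤ R B L x * R A M w := by
  have hLx : L ≤ Subgroup.centralizer {x} := fun l hl =>
    Subgroup.mem_centralizer_singleton_iff.mpr (hL l hl)
  have hnorm : L ≤ Subgroup.normalizer ((N ⊓ Subgroup.centralizer {x} : Subgroup G) : Set G) := by
    intro l hl
    have hlC : l ∈ Subgroup.centralizer {x} := hLx hl
    rw [Subgroup.mem_normalizer_iff]
    intro h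
    constructor
    · rintro ⟨a, b⟩
      exact ⟨hN.conj_mem h a l, Subgroup.mul_mem _ (Subgroup.mul_mem _ hlC b)
        (Subgroup.inv_mem _ hlC)⟩
    · rintro ⟨a, b⟩
      have h1 := hN.conj_mem _ a l⁻¹
      have h2 := Subgroup.mul_mem _ (Subgroup.mul_mem _ (Subgroup.inv_mem _ hlC) b) hlC
      have e : l⁻¹ * (l * h * l⁻¹) * l = h := by group
      rw [inv_inv, e] at h1
      rw [e] at h2
      exact ⟨h1, h2⟩
  obtain ⟨ι, fι, X, c, hc, hNX, hXL, hge, hle⟩ :=
    kappa (Nat.card (N ⊓ Subgroup.centralizer {x} : Subgroup G))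
      (N ⊓ Subgroup.centralizer {x}) L le_rfl hnorm
  have hXx : ∀ i, X i ≤ Subgroup.centralizer {x} := fun i =>
    (hXL i).trans (sup_le inf_le_right hLx)
  have ha := stepA L M N x w cx hM hLx X c hc hge
  have hcc := stepC B L N x hNB cx X c hNX hXx hle
  have hb := R_sup A M N hNA w
  set n : ℚ := (Nat.card N : ℚ) with hn
  set a : ℚ := (Nat.card G : ℚ) with ha'
  set m : ℚ := (Nat.card (N ⊓ M : Subgroup G) : ℚ) with hm
  set n₀ : ℚ := (Nat.card (N ⊓ Subgroup.centralizer {x} : Subgroup G) : ℚ) with hn₀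
  have hnpos : 0 < n := by rw [hn]; exact_mod_cast Nat.card_pos
  have hapos : 0 < a := by rw [ha']; exact_mod_cast Nat.card_pos
  have hmpos : 0 < m := by rw [hm]; exact_mod_cast Nat.card_pos
  have hn₀pos : 0 < n₀ := by rw [hn₀]; exact_mod_cast Nat.card_pos
  have hIH : a * n * ∑ i, c i * Dn (X i ⊔ N) (M ⊔ N) x w ≤
      (∑ i, c i * R (B ⊔ N) (X i ⊔ N) x) * R A (M ⊔ N) w := by
    rw [Finset.mul_sum, Finset.sum_mul]
    refine Finset.sum_le_sum (fun i _ => ?_)
    have := mul_le_mul_of_nonneg_left (IH (X i) (hXx i)) (hc i)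
    calc _ = _ := by ring
      _ ≤ _ := this
      _ = _ := by ring
  have hRA := R_nonneg A (M ⊔ N) w
  have hRA' := R_nonneg A M w
  refine le_of_mul_le_mul_left ?_ (mul_pos (mul_pos hnpos hnpos) hnpos)
  calc n * n * n * (a * Dn L M x w) = a * n * (n * (n * Dn L M x w)) := by ring
    _ ≤ a * n * (m * (n₀ * ∑ i, c i * Dn (X i ⊔ N) (M ⊔ N) x w)) :=
        mul_le_mul_of_nonneg_left ha (mul_pos hapos hnpos).le
    _ = m * n₀ * (a * n * ∑ i, c i * Dn (X i ⊔ N) (M ⊔ N) x w) := by ring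
    _ ≤ m * n₀ * ((∑ i, c i * R (B ⊔ N) (X i ⊔ N) x) * R A (M ⊔ N) w) :=
        mul_le_mul_of_nonneg_left hIH (mul_pos hmpos hn₀pos).le
    _ = (n₀ * ∑ i, c i * R (B ⊔ N) (X i ⊔ N) x) * (R A (M ⊔ N) w * m) := by ring
    _ = (n₀ * ∑ i, c i * R (B ⊔ N) (X i ⊔ N) x) * (n * R A M w) := by rw [hb]
    _ ≤ (n * (n * R B L x)) * (n * R A M w) :=
        mul_le_mul_of_nonneg_right hcc (mul_nonneg hnpos.le hRA')
    _ = _ := by ring

section quot

variable {G : Type u} [Group G] [Fintype G] (N : Subgroup G) [hN : N.Normal] [Fintype (G ⧸ N)]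

theorem sum_quot (F : G ⧸ N → ℚ) :
    ∑ g : G, F (QuotientGroup.mk' N g) = Nat.card N * ∑ q : G ⧸ N, F q := by
  classical
  have : Fintype N := Fintype.ofFinite N
  rw [Fintype.sum_equiv (Subgroup.groupEquivQuotientProdSubgroup (s := N))
    (fun g => F (QuotientGroup.mk' N g)) (fun p => F p.1) (fun g => rfl),
    Fintype.sum_prod_type, Finset.mul_sum]
  refine Finset.sum_congr rfl (fun q _ => ?_)
  simp [Nat.card_eq_fintype_card]

omit [Fintype G] [Fintype (G ⧸ N)] in
theorem mk_mem_map (H : Subgroup G) (h : G) :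
    QuotientGroup.mk' N h ∈ H.map (QuotientGroup.mk' N) ↔ h ∈ (H ⊔ N : Subgroup G) := by
  rw [← Subgroup.mem_comap, QuotientGroup.comap_map_mk', sup_comm]

theorem R_quot (B L : Subgroup G) (x : G) :
    R (B ⊔ N) (L ⊔ N) x = Nat.card N * (Nat.card N *
      R (B.map (QuotientGroup.mk' N)) (L.map (QuotientGroup.mk' N)) (QuotientGroup.mk' N x)) := by
  unfold R rr
  rw [← sum_quot N, Finset.mul_sum]
  refine Finset.sum_congr rfl (fun g _ => ?_)
  rw [← sum_quot N]
  refine Finset.sum_congr rfl (fun h _ => ?_)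
  apply ind_congr
  rw [← mk_mem_map, ← mk_mem_map, ← mk_mem_map]
  simp only [map_mul, map_inv]

theorem Dn_quot (L M : Subgroup G) (x w : G) :
    Dn (L ⊔ N) (M ⊔ N) x w = Nat.card N * (Nat.card N *
      Dn (L.map (QuotientGroup.mk' N)) (M.map (QuotientGroup.mk' N)) (QuotientGroup.mk' N x)
        (QuotientGroup.mk' N w)) := by
  unfold Dn al
  rw [← sum_quot N, Finset.mul_sum]
  refine Finset.sum_congr rfl (fun g _ => ?_)
  rw [← sum_quot N]
  refine Finset.sum_congr rfl (fun h _ => ?_)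
  apply ind_congr
  rw [← mk_mem_map, ← mk_mem_map, ← mk_mem_map, ← mk_mem_map]
  simp only [map_mul, map_inv]

end quot

/-- `G` has enough normal subgroups: for every proper normal subgroup `N` there is a normal
subgroup `M > N` with `|M : N|` coprime to `a` or coprime to `b`. -/
def PiSep (G : Type u) [Group G] (a b : ℕ) : Prop :=
  ∀ N : Subgroup G, N.Normal → N ≠ ⊤ → ∃ M : Subgroup G, M.Normal ∧ N < M ∧
    ((N.relIndex M).Coprime a ∨ (N.relIndex M).Coprime b)

theorem PiSep.symm {G : Type u} [Group G] {a b : ℕ} (h : PiSep G a b) : PiSep G b a := by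
  intro N hN hT
  obtain ⟨M, h1, h2, h3⟩ := h N hN hT
  exact ⟨M, h1, h2, h3.symm⟩

theorem PiSep.quot {G : Type u} [Group G] {a b a' b' : ℕ} (h : PiSep G a b) (ha : a' ∣ a)
    (hb : b' ∣ b) (N : Subgroup G) [hN : N.Normal] : PiSep (G ⧸ N) a' b' := by
  intro N' hN' hT
  set f := QuotientGroup.mk' N with hf
  have hsurj : Function.Surjective f := QuotientGroup.mk'_surjective N
  have hmc : (N'.comap f).map f = N' := Subgroup.map_comap_eq_self_of_surjective hsurj N'
  obtain ⟨M, hM, hlt, hcop⟩ := h (N'.comap f) (hN'.comap f) (by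
    intro h0
    apply hT
    rw [← hmc, h0, Subgroup.map_top_of_surjective f hsurj])
  refine ⟨M.map f, hM.map f hsurj, lt_of_le_of_ne ?_ ?_, ?_⟩
  · rw [← hmc]; exact Subgroup.map_mono hlt.le
  · intro h0
    have : M ≤ N'.comap f := by
      rw [h0]; exact Subgroup.le_comap_map f M
    exact absurd (lt_of_lt_of_le hlt this) (lt_irrefl _)
  · rw [← Subgroup.relIndex_comap]
    rcases hcop with h1 | h1
    · exact Or.inl (Nat.Coprime.coprime_dvd_right ha h1)
    · exact Or.inr (Nat.Coprime.coprime_dvd_right hb h1)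

/-- the statement proved by induction -/
def Stmt (n : ℕ) : Prop :=
  ∀ (G : Type u) [Group G] [Fintype G] (A B L M : Subgroup G) (x w : G),
    Nat.card G ≤ n → Nat.card A * Nat.card B = Nat.card G →
    (Nat.card A).Coprime (Nat.card B) → PiSep G (Nat.card A) (Nat.card B) →
    (∀ l ∈ L, l * x = x * l) → (∀ m ∈ M, m * w = w * m) →
    (orderOf x).Coprime (Nat.card A) → (orderOf w).Coprime (Nat.card B) →
    (Nat.card G : ℚ) * Dn L M x w ≤ R B L x * R A M w

theorem oneSide (n : ℕ) (IH : Stmt.{u} n) (G : Type u) [Group G] [Fintype G]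
    (A B L M N : Subgroup G) [hN : N.Normal] (x w : G)
    (hn : Nat.card G ≤ n + 1) (hAB : Nat.card A * Nat.card B = Nat.card G)
    (hcop : (Nat.card A).Coprime (Nat.card B)) (hsep : PiSep G (Nat.card A) (Nat.card B))
    (hL : ∀ l ∈ L, l * x = x * l) (hM : ∀ m ∈ M, m * w = w * m)
    (cx : (orderOf x).Coprime (Nat.card A)) (cw : (orderOf w).Coprime (Nat.card B))
    (hN1 : N ≠ ⊥) (hNB : (Nat.card B).Coprime (Nat.card N)) :
    (Nat.card G : ℚ) * Dn L M x w ≤ R B L x * R A M w := by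
  have hApos : 0 < Nat.card A := Nat.card_pos
  have hBpos : 0 < Nat.card B := Nat.card_pos
  have hNpos : 0 < Nat.card N := Nat.card_pos
  have hNApos : 0 < Nat.card (N ⊓ A : Subgroup G) := Nat.card_pos
  -- `N ≤ A`
  have hNA : N ≤ A := by
    have h1 := card_inf_mul_relIndex A (A ⊔ N)
    rw [inf_eq_left.mpr (le_sup_left : A ≤ A ⊔ N)] at h1
    have h2 := card_sup_mul A N
    rw [← h1] at h2
    have h3 : A.relIndex (A ⊔ N) * Nat.card (N ⊓ A : Subgroup G) = Nat.card N := by
      apply Nat.eq_of_mul_eq_mul_left hApos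
      rw [← mul_assoc, h2, mul_comm]
    have h4 : A.relIndex (A ⊔ N) ∣ Nat.card N := Dvd.intro _ h3
    have h5 : A.index = Nat.card B := by
      apply Nat.eq_of_mul_eq_mul_left hApos
      rw [Subgroup.card_mul_index, hAB]
    have h6 : A.relIndex (A ⊔ N) ∣ Nat.card B := by
      rw [← h5]; exact Subgroup.relIndex_dvd_index_of_le le_sup_left
    have h7 : A.relIndex (A ⊔ N) = 1 := Nat.eq_one_of_dvd_coprimes hNB h6 h4
    exact le_sup_right.trans (Subgroup.relIndex_eq_one.mp h7)
  have : Fintype (G ⧸ N) := Fintype.ofFinite _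
  set f := QuotientGroup.mk' N with hf
  have hcA : Nat.card (A.map f) * Nat.card N = Nat.card A := by
    have h1 := card_inf_mul_relIndex N A
    rw [inf_eq_left.mpr hNA] at h1
    have h2 := Subgroup.relIndex_ker A f
    rw [hf, QuotientGroup.ker_mk'] at h2
    rw [← h2, ← h1, mul_comm]
  have hcB : Nat.card (B.map f) = Nat.card B := by
    have h1 := card_inf_mul_relIndex N B
    have h0 : N ⊓ B = ⊥ := by
      rw [inf_comm]; exact (Subgroup.disjoint_of_coprime_natCard hNB).eq_bot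
    have h2 := Subgroup.relIndex_ker B f
    rw [hf, QuotientGroup.ker_mk'] at h2
    have h3 : Nat.card (⊥ : Subgroup G) = 1 := by simp
    rw [h0, h3, one_mul, h2] at h1
    exact h1
  have hcQ : Nat.card (G ⧸ N) * Nat.card N = Nat.card G :=
    (Subgroup.card_eq_card_quotient_mul_card_subgroup N).symm
  have hQpos : 0 < Nat.card (G ⧸ N) := Nat.card_pos
  have hN2 : 2 ≤ Nat.card N := by
    by_contra h
    apply hN1
    rw [← Subgroup.card_eq_one]
    omega
  have hQn : Nat.card (G ⧸ N) ≤ n := by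
    have : Nat.card (G ⧸ N) * 2 ≤ Nat.card G := by
      rw [← hcQ]; exact Nat.mul_le_mul_left _ hN2
    omega
  have hdA : Nat.card (A.map f) ∣ Nat.card A := Dvd.intro _ hcA
  have hdB : Nat.card (B.map f) ∣ Nat.card B := by rw [hcB]
  refine step A B L M N x w hNA hNB
    (Nat.Coprime.coprime_dvd_right (Subgroup.card_dvd_of_le hNA) cx) hL hM (fun X hX => ?_)
  have h := IH (G ⧸ N) (A.map f) (B.map f) (X.map f) (M.map f) (f x) (f w) hQn
    (by
      apply Nat.eq_of_mul_eq_mul_right hNpos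
      rw [hcQ, ← hAB, hcB, ← hcA]; ring)
    (Nat.Coprime.coprime_dvd_left hdA (Nat.Coprime.coprime_dvd_right hdB hcop))
    (hsep.quot hdA hdB N)
    (by
      rintro _ ⟨l, hl, rfl⟩
      have := Subgroup.mem_centralizer_singleton_iff.mp (hX hl)
      rw [← map_mul, this, map_mul])
    (by
      rintro _ ⟨m, hm, rfl⟩
      rw [← map_mul, hM m hm, map_mul])
    (Nat.Coprime.coprime_dvd_left (orderOf_map_dvd f x)
      (Nat.Coprime.coprime_dvd_right hdA cx))
    (Nat.Coprime.coprime_dvd_left (orderOf_map_dvd f w)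
      (Nat.Coprime.coprime_dvd_right hdB cw))
  have hAN : A = A ⊔ N := (sup_eq_left.mpr hNA).symm
  have e1 := R_quot N B X x
  have e2 := R_quot N A M w
  have e3 := Dn_quot N X M x w
  rw [← hAN] at e2
  rw [e1, e2, e3]
  have hcQ' : (Nat.card G : ℚ) = Nat.card (G ⧸ N) * Nat.card N := by exact_mod_cast hcQ.symm
  rw [hcQ']
  have hpos : (0 : ℚ) ≤ (Nat.card N : ℚ) ^ 4 := by positivity
  calc _ = (Nat.card N : ℚ) ^ 4 * (Nat.card (G ⧸ N) *
        Dn (X.map f) (M.map f) (f x) (f w)) := by ring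
    _ ≤ (Nat.card N : ℚ) ^ 4 * (R (B.map f) (X.map f) (f x) * R (A.map f) (M.map f) (f w)) :=
        mul_le_mul_of_nonneg_left h hpos
    _ = _ := by ring

theorem stmt_all (n : ℕ) : Stmt.{u} n := by
  induction n with
  | zero =>
    intro G _ _ A B L M x w hn
    exact absurd (Nat.card_pos (α := G)) (by omega)
  | succ n ih =>
    intro G _ _ A B L M x w hn hAB hcop hsep hL hM cx cw
    by_cases h1 : Nat.card G = 1
    · have hsub : Subsingleton G := (Nat.card_eq_one_iff_unique.mp h1).1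
      have hall : ∀ a : G, a = 1 := fun a => Subsingleton.elim a 1
      have hall' : ∀ (H : Subgroup G) (a : G), a ∈ H := fun H a => by
        rw [hall a]; exact H.one_mem
      have hsum : ∀ F : G → ℚ, ∑ g : G, F g = F 1 := by
        intro F
        rw [Fintype.sum_eq_single (1 : G) (fun a ha => absurd (hall a) ha)]
      have e1 : Dn L M x w = 1 := by
        unfold Dn al
        rw [hsum, hsum]
        exact ind_pos ⟨hall' _ _, hall' _ _, hall' _ _, hall' _ _⟩
      have e2 : ∀ (B L : Subgroup G) (x : G), R B L x = 1 := by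
        intro B L x
        unfold R rr
        rw [hsum, hsum]
        exact ind_pos ⟨hall' _ _, hall' _ _, hall' _ _⟩
      rw [e1, e2, e2, h1]
      norm_num
    · have hbt : (⊥ : Subgroup G) ≠ ⊤ := by
        intro h0
        apply h1
        have h2 : Nat.card (⊥ : Subgroup G) = Nat.card (⊤ : Subgroup G) := by rw [h0]
        rw [Subgroup.card_top] at h2
        rw [← h2]; simp
      obtain ⟨N, hN, hlt, hc⟩ := hsep ⊥ inferInstance hbt
      rw [Subgroup.relIndex_bot_left] at hc
      rcases hc with hc | hc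
      · have := oneSide n ih G B A M L N w x hn (by rw [mul_comm]; exact hAB) hcop.symm
          hsep.symm hM hL cw cx hlt.ne' hc.symm
        rw [Dn_symm, mul_comm (R B L x)]
        exact this
      · exact oneSide n ih G A B L M N x w hn hAB hcop hsep hL hM cx cw hlt.ne' hc.symm

end Pool.MP_2bb03e_al.KG
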