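import Pool.Agent.Lib.MP_2bb03e_al.CL
import Pool.Agent.Lib.MP_2bb03e_al.Ind

set_option autoImplicit false

universe u

open Pointwise

namespace Pool.MP_2bb03e_al.KG

variable {G : Type u} [Group G]

/-- the conjugate `n L n⁻¹` -/
def cj (n : G) (L : Subgroup G) : Subgroup G := L.comap (MulAut.conj n⁻¹).toMonoidHom

theorem mem_cj (n : G) (L : Subgroup G) (h : G) : h ∈ cj n L ↔ n⁻¹ * h * n ∈ L := by
  simp [cj]

variable [Fintype G]

/-- number of `n ∈ N` with `n⁻¹ H n ⊆ L` -/
noncomputable def cnt (N L : Subgroup G) (H : Set G) : ℚ :=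
  ∑ n : G, ind (n ∈ N ∧ ∀ h ∈ H, n⁻¹ * h * n ∈ L)

theorem cnt_conj (N L : Subgroup G) (H H' : Set G) (m : G) (hm : m ∈ N)
    (hH : ∀ h, h ∈ H' ↔ m * h * m⁻¹ ∈ H) : cnt N L H' = cnt N L H := by
  unfold cnt
  rw [← sum_mul_left m (fun n => ind (n ∈ N ∧ ∀ h ∈ H, n⁻¹ * h * n ∈ L))]
  refine Finset.sum_congr rfl (fun n _ => ?_)
  apply ind_congr
  refine and_congr ?_ ?_
  · constructor
    · intro h; exact N.mul_mem hm h
    · intro h; have := N.mul_mem (N.inv_mem hm) h; simpa using this
  · constructor
    · intro h g hg
      have h1 : m⁻¹ * g * m ∈ H' := by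
        rw [hH]
        have : m * (m⁻¹ * g * m) * m⁻¹ = g := by group
        rwa [this]
      have := h _ h1
      have e : (m * n)⁻¹ * g * (m * n) = n⁻¹ * (m⁻¹ * g * m) * n := by group
      rwa [e]
    · intro h g hg
      have h1 := h _ ((hH g).mp hg)
      have e : (m * n)⁻¹ * (m * g * m⁻¹) * (m * n) = n⁻¹ * g * n := by group
      rwa [e] at h1

/-- main averaging identity -/
theorem cnt_avg (N L : Subgroup G) (H : Set G) (hH : ∀ h ∈ H, h ∈ L) :
    (Nat.card (N ⊓ L : Subgroup G) : ℚ) * cnt N L H =
      ∑ n : G, ind (n ∈ N) * cnt (N ⊓ L) (L ⊓ cj n L) H := by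
  have h1 : ∀ n : G, ind (n ∈ N) * cnt (N ⊓ L) (L ⊓ cj n L) H =
      ∑ m : G, ind (m ∈ N ⊓ L) * ind (m * n ∈ N ∧ ∀ h ∈ H, (m * n)⁻¹ * h * (m * n) ∈ L) := by
    intro n
    unfold cnt
    rw [Finset.mul_sum]
    refine Finset.sum_congr rfl (fun m _ => ?_)
    rw [← ind_and, ← ind_and]
    apply ind_congr
    constructor
    · rintro ⟨hn, hm, h⟩
      refine ⟨hm, N.mul_mem hm.1 hn, fun g hg => ?_⟩
      have := (mem_cj n L _).mp (h g hg).2
      have e : (m * n)⁻¹ * g * (m * n) = n⁻¹ * (m⁻¹ * g * m) * n := by group
      rwa [e]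
    · rintro ⟨hm, hmn, h⟩
      refine ⟨?_, hm, fun g hg => ⟨?_, ?_⟩⟩
      · have := N.mul_mem (N.inv_mem hm.1) hmn
        simpa using this
      · exact L.mul_mem (L.mul_mem (L.inv_mem hm.2) (hH g hg)) hm.2
      · refine (mem_cj n L _).mpr ?_
        have e : (m * n)⁻¹ * g * (m * n) = n⁻¹ * (m⁻¹ * g * m) * n := by group
        rw [← e]
        exact h g hg
  rw [Finset.sum_congr rfl (fun n _ => h1 n), Finset.sum_comm]
  have h2 : ∀ m : G, ∑ n : G, ind (m ∈ N ⊓ L) *
      ind (m * n ∈ N ∧ ∀ h ∈ H, (m * n)⁻¹ * h * (m * n) ∈ L) = ind (m ∈ N ⊓ L) * cnt N L H := by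
    intro m
    rw [← Finset.mul_sum]
    congr 1
    exact sum_mul_left m (fun n => ind (n ∈ N ∧ ∀ h ∈ H, n⁻¹ * h * n ∈ L))
  rw [Finset.sum_congr rfl (fun m _ => h2 m), ← Finset.sum_mul, sum_ind_mem]

theorem kappa (k : ℕ) : ∀ (N L : Subgroup G), Nat.card N ≤ k →
    L ≤ Subgroup.normalizer (N : Set G) →
    ∃ (ι : Type u) (_ : Fintype ι) (X : ι → Subgroup G) (c : ι → ℚ),
      (∀ i, 0 ≤ c i) ∧ (∀ i, N ≤ X i) ∧ (∀ i, X i ≤ N ⊔ L) ∧
      (∀ H : Set G, cnt N L H ≤ Nat.card N * ∑ i, c i * ind (∀ h ∈ H, h ∈ X i)) ∧
      (∀ h : G, (orderOf h).Coprime (Nat.card N) →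
        Nat.card N * ∑ i, c i * ind (h ∈ X i) ≤ cnt N L {h}) := by
  induction k with
  | zero =>
    intro N L h
    exact absurd (Nat.card_pos (α := N)) (by omega)
  | succ k ih =>
    intro N L hk hL
    by_cases hNL : N ≤ L
    · -- base case
      have key : ∀ H : Set G, cnt N L H = Nat.card N * ind (∀ h ∈ H, h ∈ L) := by
        intro H
        rw [← sum_ind_mem N, Finset.sum_mul]
        unfold cnt
        refine Finset.sum_congr rfl (fun n _ => ?_)
        rw [← ind_and]
        apply ind_congr
        constructor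
        · rintro ⟨hn, h⟩
          refine ⟨hn, fun g hg => ?_⟩
          have := L.mul_mem (L.mul_mem (hNL hn) (h g hg)) (L.inv_mem (hNL hn))
          have e : n * (n⁻¹ * g * n) * n⁻¹ = g := by group
          rwa [e] at this
        · rintro ⟨hn, h⟩
          exact ⟨hn, fun g hg => L.mul_mem (L.mul_mem (L.inv_mem (hNL hn)) (h g hg)) (hNL hn)⟩
      refine ⟨PUnit, inferInstance, fun _ => L, fun _ => 1, fun _ => zero_le_one, fun _ => hNL,
        fun _ => le_sup_right, ?_, ?_⟩
      · intro H
        rw [key]
        simp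
      · intro h _
        rw [key]
        simp
    · -- induction step
      have hlt : Nat.card (N ⊓ L : Subgroup G) ≤ k := by
        by_contra hc
        apply hNL
        have : N ⊓ L = N := Subgroup.eq_of_le_of_card_ge inf_le_left (by omega)
        exact inf_eq_left.mp this
      have hnorm : ∀ n : G, (L ⊓ cj n L : Subgroup G) ≤
          Subgroup.normalizer ((N ⊓ L : Subgroup G) : Set G) := by
        intro n l hl
        have hlL : l ∈ L := hl.1
        rw [Subgroup.mem_normalizer_iff]
        intro h
        have h1 := (Subgroup.mem_normalizer_iff (H := N)).mp (hL hlL) h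
        constructor
        · rintro ⟨a, b⟩
          exact ⟨h1.mp a, L.mul_mem (L.mul_mem hlL b) (L.inv_mem hlL)⟩
        · rintro ⟨a, b⟩
          refine ⟨h1.mpr a, ?_⟩
          have := L.mul_mem (L.mul_mem (L.inv_mem hlL) b) hlL
          have e : l⁻¹ * (l * h * l⁻¹) * l = h := by group
          rwa [e] at this
      choose ι fι X c hc hNX hXN hge hle using fun n : G =>
        ih (N ⊓ L) (L ⊓ cj n L) hlt (hnorm n)
      have hXL : ∀ n i, X n i ≤ L := fun n i =>
        (hXN n i).trans (sup_le inf_le_right inf_le_left)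
      have hNpos : (0 : ℚ) < Nat.card N := by exact_mod_cast Nat.card_pos
      have hNLpos : (0 : ℚ) < Nat.card (N ⊓ L : Subgroup G) := by exact_mod_cast Nat.card_pos
      -- Dedekind
      have hded : ∀ n i (h : G), h ∈ L → (h ∈ (X n i ⊔ N : Subgroup G) ↔ h ∈ X n i) := by
        intro n i h hh
        constructor
        · intro h1
          have h2 : h ∈ ((X n i : Set G) * (N : Set G)) := by
            rw [← Subgroup.coe_mul_of_left_le_normalizer_right (X n i) N ((hXL n i).trans hL)]
            exact h1
          obtain ⟨y, hy, n', hn', rfl⟩ := Set.mem_mul.mp h2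
          refine (X n i).mul_mem hy (hNX n i ⟨hn', ?_⟩)
          have := L.mul_mem (L.inv_mem (hXL n i hy)) hh
          simpa using this
        · intro h1
          exact Subgroup.mem_sup_left h1
      refine ⟨(Σ n : G, ι n), inferInstance, fun p => X p.1 p.2 ⊔ N,
        fun p => ind (p.1 ∈ N) * c p.1 p.2 / Nat.card N, ?_, ?_, ?_, ?_, ?_⟩
      · rintro ⟨n, i⟩
        exact div_nonneg (mul_nonneg (ind_nonneg _) (hc n i)) hNpos.le
      · rintro ⟨n, i⟩
        exact le_sup_right
      · rintro ⟨n, i⟩
        exact sup_le ((hXL n i).trans le_sup_right) le_sup_left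
      · -- upper bound
        intro H
        by_cases hex : ∃ m ∈ N, ∀ h ∈ H, m⁻¹ * h * m ∈ L
        · obtain ⟨m, hm, hmH⟩ := hex
          let H' : Set G := {h | m * h * m⁻¹ ∈ H}
          have hH'L : ∀ h ∈ H', h ∈ L := by
            intro h hh
            have := hmH _ hh
            have e : m⁻¹ * (m * h * m⁻¹) * m = h := by group
            rwa [e] at this
          have e1 : cnt N L H' = cnt N L H := cnt_conj N L H H' m hm (fun h => Iff.rfl)
          have e2 : ∀ p : (Σ n : G, ι n), ind (∀ h ∈ H', h ∈ (X p.1 p.2 ⊔ N : Subgroup G)) =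
              ind (∀ h ∈ H, h ∈ (X p.1 p.2 ⊔ N : Subgroup G)) := by
            intro p
            have hmX : m ∈ (X p.1 p.2 ⊔ N : Subgroup G) := Subgroup.mem_sup_right hm
            apply ind_congr
            constructor
            · intro h g hg
              have h1 : m⁻¹ * g * m ∈ H' := by
                change m * (m⁻¹ * g * m) * m⁻¹ ∈ H
                have : m * (m⁻¹ * g * m) * m⁻¹ = g := by group
                rwa [this]
              have h2 := h _ h1
              have := Subgroup.mul_mem _ (Subgroup.mul_mem _ hmX h2) (Subgroup.inv_mem _ hmX)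
              have e : m * (m⁻¹ * g * m) * m⁻¹ = g := by group
              rwa [e] at this
            · intro h g hg
              have h2 := h _ hg
              have := Subgroup.mul_mem _ (Subgroup.mul_mem _ (Subgroup.inv_mem _ hmX) h2) hmX
              have e : m⁻¹ * (m * g * m⁻¹) * m = g := by group
              rwa [e] at this
          rw [← e1]
          have hmain := cnt_avg N L H' hH'L
          have h3 : ∀ n : G, ind (n ∈ N) * cnt (N ⊓ L) (L ⊓ cj n L) H' ≤
              ind (n ∈ N) * (Nat.card (N ⊓ L : Subgroup G) *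
                ∑ i, c n i * ind (∀ h ∈ H', h ∈ X n i)) := by
            intro n
            exact mul_le_mul_of_nonneg_left (hge n H') (ind_nonneg _)
          have h4 : (Nat.card (N ⊓ L : Subgroup G) : ℚ) * cnt N L H' ≤
              Nat.card (N ⊓ L : Subgroup G) *
                (Nat.card N * ∑ p : (Σ n : G, ι n), ind (p.1 ∈ N) * c p.1 p.2 / Nat.card N *
                  ind (∀ h ∈ H', h ∈ (X p.1 p.2 ⊔ N : Subgroup G))) := by
            rw [hmain]
            refine (Finset.sum_le_sum (fun n _ => h3 n)).trans (le_of_eq ?_)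
            rw [Fintype.sum_sigma, Finset.mul_sum, Finset.mul_sum]
            refine Finset.sum_congr rfl (fun n _ => ?_)
            rw [Finset.mul_sum, Finset.mul_sum, Finset.mul_sum, Finset.mul_sum]
            refine Finset.sum_congr rfl (fun i _ => ?_)
            have e5 : ind (∀ h ∈ H', h ∈ (X n i ⊔ N : Subgroup G)) =
                ind (∀ h ∈ H', h ∈ X n i) := by
              apply ind_congr
              constructor
              · intro h g hg; exact (hded n i g (hH'L g hg)).mp (h g hg)
              · intro h g hg; exact (hded n i g (hH'L g hg)).mpr (h g hg)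
            simp only [e5]
            field_simp
          have h5 := le_of_mul_le_mul_left h4 hNLpos
          rw [Finset.sum_congr rfl (fun p _ => by rw [e2 p])] at h5
          exact h5
        · have : cnt N L H = 0 := by
            unfold cnt
            refine Finset.sum_eq_zero (fun n _ => ?_)
            apply ind_neg
            rintro ⟨hn, h⟩
            exact hex ⟨n, hn, h⟩
          rw [this]
          refine mul_nonneg hNpos.le (Finset.sum_nonneg (fun p _ => ?_))
          exact mul_nonneg (div_nonneg (mul_nonneg (ind_nonneg _) (hc _ _)) hNpos.le)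
            (ind_nonneg _)
      · -- lower bound
        intro h ch
        by_cases hmem : h ∈ (N ⊔ L : Subgroup G)
        · obtain ⟨m, hm, hmh⟩ := conj_into N L hL h hmem ch
          set h' := m⁻¹ * h * m with hh'
          have e1 : cnt N L {h'} = cnt N L {h} := by
            apply cnt_conj N L {h} {h'} m hm
            intro g
            simp only [Set.mem_singleton_iff]
            rw [hh']
            constructor
            · rintro rfl; group
            · intro e; rw [← e]; group
          have ch' : (orderOf h').Coprime (Nat.card (N ⊓ L : Subgroup G)) := by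
            have e : orderOf h' = orderOf h := orderOf_conj_eq' m h
            rw [e]
            exact Nat.Coprime.coprime_dvd_right (Subgroup.card_dvd_of_le inf_le_left) ch
          have e2 : ∀ p : (Σ n : G, ι n), ind (h' ∈ (X p.1 p.2 ⊔ N : Subgroup G)) =
              ind (h ∈ (X p.1 p.2 ⊔ N : Subgroup G)) := by
            intro p
            have hmX : m ∈ (X p.1 p.2 ⊔ N : Subgroup G) := Subgroup.mem_sup_right hm
            apply ind_congr
            constructor
            · intro h2
              have := Subgroup.mul_mem _ (Subgroup.mul_mem _ hmX h2) (Subgroup.inv_mem _ hmX)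
              have e : m * h' * m⁻¹ = h := by rw [hh']; group
              rwa [e] at this
            · intro h2
              exact Subgroup.mul_mem _ (Subgroup.mul_mem _ (Subgroup.inv_mem _ hmX) h2) hmX
          rw [← e1]
          have hmain := cnt_avg N L {h'} (by
            intro g hg
            rw [Set.mem_singleton_iff] at hg
            rw [hg]; exact hmh)
          have h3 : ∀ n : G, ind (n ∈ N) * (Nat.card (N ⊓ L : Subgroup G) *
                ∑ i, c n i * ind (h' ∈ X n i)) ≤
              ind (n ∈ N) * cnt (N ⊓ L) (L ⊓ cj n L) {h'} := by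
            intro n
            exact mul_le_mul_of_nonneg_left (hle n h' ch') (ind_nonneg _)
          have h4 : Nat.card (N ⊓ L : Subgroup G) *
                (Nat.card N * ∑ p : (Σ n : G, ι n), ind (p.1 ∈ N) * c p.1 p.2 / Nat.card N *
                  ind (h' ∈ (X p.1 p.2 ⊔ N : Subgroup G))) ≤
              (Nat.card (N ⊓ L : Subgroup G) : ℚ) * cnt N L {h'} := by
            rw [hmain]
            refine (le_of_eq ?_).trans (Finset.sum_le_sum (fun n _ => h3 n))
            rw [Fintype.sum_sigma, Finset.mul_sum, Finset.mul_sum]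
            refine Finset.sum_congr rfl (fun n _ => ?_)
            rw [Finset.mul_sum, Finset.mul_sum, Finset.mul_sum, Finset.mul_sum]
            refine Finset.sum_congr rfl (fun i _ => ?_)
            have e5 : ind (h' ∈ (X n i ⊔ N : Subgroup G)) = ind (h' ∈ X n i) :=
              ind_congr (hded n i h' hmh)
            simp only [e5]
            field_simp
          have h5 := le_of_mul_le_mul_left h4 hNLpos
          rw [Finset.sum_congr rfl (fun p _ => by rw [e2 p])] at h5
          exact h5
        · have hz : ∀ p : (Σ n : G, ι n), ind (h ∈ (X p.1 p.2 ⊔ N : Subgroup G)) = 0 := by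
            intro p
            apply ind_neg
            intro h1
            exact hmem (sup_le ((hXL _ _).trans le_sup_right) le_sup_left h1)
          have : ∑ p : (Σ n : G, ι n), ind (p.1 ∈ N) * c p.1 p.2 / Nat.card N *
              ind (h ∈ (X p.1 p.2 ⊔ N : Subgroup G)) = 0 := by
            refine Finset.sum_eq_zero (fun p _ => ?_)
            rw [hz p, mul_zero]
          rw [this, mul_zero]
          exact Finset.sum_nonneg (fun n _ => ind_nonneg _)

end Pool.MP_2bb03e_al.KG
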