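import Pool.Agent.Lib.MP_2bb03e_al.Cards

set_option autoImplicit false

universe u

open Pointwise

namespace Pool.MP_2bb03e_al.KG

variable {G : Type u} [Group G] [Fintype G]

theorem al_smul (L M N : Subgroup G) [hN : N.Normal] (hL : N ≤ L) (hM : N ≤ M) (x w g n : G)
    (hn : n ∈ N) : al L M x w (n * g) = al L M x w g := by
  unfold al
  have hnL := hL hn
  have key : ∀ u : G, n * g * u * (n * g)⁻¹ ∈ L ↔ g * u * g⁻¹ ∈ L := by
    intro u
    constructor
    · intro h1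
      have := L.mul_mem (L.mul_mem (L.inv_mem hnL) h1) hnL
      have e : n⁻¹ * (n * g * u * (n * g)⁻¹) * n = g * u * g⁻¹ := by group
      rwa [e] at this
    · intro h1
      have := L.mul_mem (L.mul_mem hnL h1) (L.inv_mem hnL)
      have e : n * (g * u * g⁻¹) * n⁻¹ = n * g * u * (n * g)⁻¹ := by group
      rwa [e] at this
  refine Finset.sum_congr rfl (fun m _ => ?_)
  apply ind_congr
  refine and_congr Iff.rfl (and_congr (key w) (and_congr ?_ (key m)))
  have hn1 : g⁻¹ * n * g ∈ M := by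
    apply hM
    have := hN.conj_mem n hn g⁻¹
    rwa [inv_inv] at this
  constructor
  · intro h1
    have := M.mul_mem (M.mul_mem hn1 h1) (M.inv_mem hn1)
    have e : (g⁻¹ * n * g) * ((n * g)⁻¹ * x * (n * g)) * (g⁻¹ * n * g)⁻¹ = g⁻¹ * x * g := by
      group
    rwa [e] at this
  · intro h1
    have := M.mul_mem (M.mul_mem (M.inv_mem hn1) h1) hn1
    have e : (g⁻¹ * n * g)⁻¹ * (g⁻¹ * x * g) * (g⁻¹ * n * g) = (n * g)⁻¹ * x * (n * g) := by
      group
    rwa [e] at this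

theorem al_mul_right (L M : Subgroup G) (x w g k : G) (hk : k ∈ M) (hkw : k * w = w * k) :
    al L M x w (g * k) = al L M x w g := by
  unfold al
  rw [← sum_conj k (fun m => ind (m ∈ M ∧ g * w * g⁻¹ ∈ L ∧ g⁻¹ * x * g ∈ M ∧ g * m * g⁻¹ ∈ L))]
  refine Finset.sum_congr rfl (fun m _ => ?_)
  apply ind_congr
  refine and_congr ?_ (and_congr ?_ (and_congr ?_ ?_))
  · constructor
    · intro h; exact M.mul_mem (M.mul_mem hk h) (M.inv_mem hk)
    · intro h
      have := M.mul_mem (M.mul_mem (M.inv_mem hk) h) hk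
      have e : k⁻¹ * (k * m * k⁻¹) * k = m := by group
      rwa [e] at this
  · have e : g * k * w * (g * k)⁻¹ = g * w * g⁻¹ := by
      calc g * k * w * (g * k)⁻¹ = g * (k * w) * k⁻¹ * g⁻¹ := by group
        _ = g * (w * k) * k⁻¹ * g⁻¹ := by rw [hkw]
        _ = _ := by group
    rw [e]
  · have e : (g * k)⁻¹ * x * (g * k) = k⁻¹ * (g⁻¹ * x * g) * k := by group
    rw [e]
    constructor
    · intro h
      have := M.mul_mem (M.mul_mem hk h) (M.inv_mem hk)
      have e : k * (k⁻¹ * (g⁻¹ * x * g) * k) * k⁻¹ = g⁻¹ * x * g := by group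
      rwa [e] at this
    · intro h
      exact M.mul_mem (M.mul_mem (M.inv_mem hk) h) hk
  · have e : g * k * m * (g * k)⁻¹ = g * (k * m * k⁻¹) * g⁻¹ := by group
    rw [e]

/-- step (1a) -/
theorem stepA_a (L M N : Subgroup G) [hN : N.Normal] (x w : G)
    (cx : (orderOf x).Coprime (Nat.card N)) (hM : ∀ m ∈ M, m * w = w * m)
    (g : G) (hg : g⁻¹ * x * g ∈ M) :
    (Nat.card (N ⊓ M ⊓ Subgroup.centralizer {g⁻¹ * x * g} : Subgroup G) : ℚ) *
        ∑ n : G, ind (n ∈ N) * al L M x w (n * g) =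
      Nat.card (N ⊓ M : Subgroup G) *
        ∑ c : G, ind (c ∈ N ⊓ Subgroup.centralizer {x}) * al L M x w (c * g) := by
  set y := g⁻¹ * x * g with hy
  set D := N ⊓ M ⊓ Subgroup.centralizer {y} with hD
  have hfix : ∀ n : G, ind (n ∈ N) * (Nat.card D * al L M x w (n * g)) =
      ind (n ∈ N) * ((∑ k : G, ind (k ∈ N ⊓ M ∧ k * ((n * g)⁻¹ * x * (n * g)) * k⁻¹ = y)) *
        al L M x w (n * g)) := by
    intro n
    refine ind_mul_congr (fun hn => ?_)
    set y' := (n * g)⁻¹ * x * (n * g) with hy'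
    by_cases hM' : y' ∈ M
    · congr 1
      have hcong : y'⁻¹ * y ∈ N ⊓ M := by
        refine ⟨?_, M.mul_mem (M.inv_mem hM') hg⟩
        have e : y'⁻¹ * y = g⁻¹ * (n⁻¹ * (x⁻¹ * n * x)) * g := by rw [hy', hy]; group
        rw [e]
        have h1 := hN.conj_mem n hn x⁻¹
        rw [inv_inv] at h1
        have h2 := hN.conj_mem _ (N.mul_mem (N.inv_mem hn) h1) g⁻¹
        rwa [inv_inv] at h2
      have hnorm : y' ∈ Subgroup.normalizer ((N ⊓ M : Subgroup G) : Set G) := by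
        rw [Subgroup.mem_normalizer_iff]
        intro h
        constructor
        · rintro ⟨a, b⟩
          exact ⟨hN.conj_mem h a y', M.mul_mem (M.mul_mem hM' b) (M.inv_mem hM')⟩
        · rintro ⟨a, b⟩
          have h1 := hN.conj_mem _ a y'⁻¹
          have h2 := M.mul_mem (M.mul_mem (M.inv_mem hM') b) hM'
          have e : y'⁻¹ * (y' * h * y'⁻¹) * y' = h := by group
          rw [inv_inv, e] at h1
          rw [e] at h2
          exact ⟨h1, h2⟩
      have cN : Nat.card (N ⊓ M : Subgroup G) ∣ Nat.card N := Subgroup.card_dvd_of_le inf_le_left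
      have o1 : orderOf y' = orderOf x := orderOf_conj_eq' (n * g) x
      have o2 : orderOf y = orderOf x := orderOf_conj_eq' g x
      obtain ⟨k₀, hk₀, e₀⟩ := CL (orderOf y') (N ⊓ M) y' y le_rfl hnorm hcong
        (by rw [o1]; exact Nat.Coprime.coprime_dvd_right cN cx)
        (by rw [o2]; exact Nat.Coprime.coprime_dvd_right cN cx)
      rw [← sum_mul_right k₀, ← sum_ind_mem]
      refine Finset.sum_congr rfl (fun d _ => ?_)
      apply ind_congr
      have e1 : d * k₀ * y' * (d * k₀)⁻¹ = d * y * d⁻¹ := by rw [← e₀]; group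
      rw [e1, hD, Subgroup.mem_inf, Subgroup.mem_centralizer_singleton_iff,
        (N ⊓ M).mul_mem_cancel_right hk₀, mul_inv_eq_iff_eq_mul]
    · have h0 : al L M x w (n * g) = 0 := by
        unfold al
        refine Finset.sum_eq_zero (fun m _ => ?_)
        apply ind_neg
        rintro ⟨_, _, h, _⟩
        exact hM' h
      rw [h0, mul_zero, mul_zero]
  have h1 : (Nat.card D : ℚ) * ∑ n : G, ind (n ∈ N) * al L M x w (n * g) =
      ∑ k : G, ∑ n : G, ind (n ∈ N) *
        (ind (k ∈ N ⊓ M ∧ k * ((n * g)⁻¹ * x * (n * g)) * k⁻¹ = y) * al L M x w (n * g)) := by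
    rw [Finset.mul_sum, Finset.sum_comm]
    refine Finset.sum_congr rfl (fun n _ => ?_)
    rw [← Finset.mul_sum, ← Finset.sum_mul, ← hfix n]
    ring
  rw [h1, ← sum_ind_mem, Finset.sum_mul]
  refine Finset.sum_congr rfl (fun k _ => ?_)
  by_cases hk : k ∈ N ⊓ M
  · rw [ind_pos hk, one_mul, ← sum_mul_right (g * k * g⁻¹)]
    refine Finset.sum_congr rfl (fun c _ => ?_)
    have e1 : c * (g * k * g⁻¹) * g = (c * g) * k := by group
    rw [e1, al_mul_right L M x w (c * g) k hk.2 (hM k hk.2), ← mul_assoc, ← ind_and]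
    congr 1
    apply ind_congr
    have e2 : k * ((c * g * k)⁻¹ * x * (c * g * k)) * k⁻¹ = g⁻¹ * (c⁻¹ * x * c) * g := by group
    rw [e2, N.mul_mem_cancel_right (hN.conj_mem k hk.1 g), Subgroup.mem_inf (p := N) (x := c),
      Subgroup.mem_centralizer_singleton_iff, hy]
    refine and_congr Iff.rfl ⟨?_, ?_⟩
    · rintro ⟨_, h⟩
      have h3 : c⁻¹ * x * c = x := by
        have := mul_left_cancel (mul_right_cancel h)
        exact this
      calc c * x = c * (c⁻¹ * x * c) := by rw [h3]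
        _ = x * c := by group
    · intro h
      refine ⟨hk, ?_⟩
      have h3 : c⁻¹ * x * c = x := by
        rw [mul_assoc, ← h]; group
      rw [h3]
  · rw [ind_neg hk, zero_mul]
    refine Finset.sum_eq_zero (fun n _ => ?_)
    rw [ind_neg (P := k ∈ N ⊓ M ∧ _) (fun h => hk h.1)]
    ring

/-- step (1b) -/
theorem stepA_b (L M N : Subgroup G) (x w : G)
    (hL : L ≤ Subgroup.centralizer {x})
    {ι : Type u} [Fintype ι] (X : ι → Subgroup G) (c : ι → ℚ)
    (hge : ∀ H : Set G, cnt (N ⊓ Subgroup.centralizer {x}) L H ≤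
      Nat.card (N ⊓ Subgroup.centralizer {x} : Subgroup G) *
        ∑ i, c i * ind (∀ h ∈ H, h ∈ X i))
    (g : G) :
    ∑ c : G, ind (c ∈ N ⊓ Subgroup.centralizer {x}) * al L M x w (c * g) ≤
      Nat.card (N ⊓ Subgroup.centralizer {x} : Subgroup G) * ∑ i, c i *
        (ind (g * w * g⁻¹ ∈ X i) * Nat.card
          (M ⊓ Subgroup.centralizer {g⁻¹ * x * g} ⊓ cj g⁻¹ (X i) : Subgroup G)) := by
  set y := g⁻¹ * x * g with hy
  set N₀ := N ⊓ Subgroup.centralizer {x} with hN₀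
  have h1 : ∑ c : G, ind (c ∈ N₀) * al L M x w (c * g) ≤
      ∑ m : G, ind (m ∈ M ⊓ Subgroup.centralizer {y}) *
        cnt N₀ L {g * w * g⁻¹, g * m * g⁻¹} := by
    unfold al cnt
    simp_rw [Finset.mul_sum]
    rw [Finset.sum_comm]
    refine Finset.sum_le_sum (fun m _ => ?_)
    rw [← sum_inv]
    refine Finset.sum_le_sum (fun c _ => ?_)
    rw [← ind_and, ← ind_and]
    apply ind_mono
    rintro ⟨hc, hm, hw, hx, hmL⟩
    have hc' : c ∈ N₀ := by
      have := N₀.inv_mem hc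
      rwa [inv_inv] at this
    have hcx : c * x = x * c := Subgroup.mem_centralizer_singleton_iff.mp hc'.2
    refine ⟨⟨hm, ?_⟩, hc', ?_⟩
    · refine Subgroup.mem_centralizer_singleton_iff.mpr ?_
      have hu : c⁻¹ * g * m * (c⁻¹ * g)⁻¹ * x = x * (c⁻¹ * g * m * (c⁻¹ * g)⁻¹) :=
        Subgroup.mem_centralizer_singleton_iff.mp (hL hmL)
      have hcx' : c * x * c⁻¹ = x := by rw [hcx]; group
      have h2 : (g * m * g⁻¹) * x = x * (g * m * g⁻¹) := by
        calc (g * m * g⁻¹) * x = (g * m * g⁻¹) * (c * x * c⁻¹) := by rw [hcx']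
          _ = c * (c⁻¹ * g * m * (c⁻¹ * g)⁻¹ * x) * c⁻¹ := by group
          _ = c * (x * (c⁻¹ * g * m * (c⁻¹ * g)⁻¹)) * c⁻¹ := by rw [hu]
          _ = (c * x * c⁻¹) * (g * m * g⁻¹) := by group
          _ = _ := by rw [hcx']
      calc m * y = g⁻¹ * ((g * m * g⁻¹) * x) * g := by rw [hy]; group
        _ = g⁻¹ * (x * (g * m * g⁻¹)) * g := by rw [h2]
        _ = y * m := by rw [hy]; group
    · intro h hh
      rcases hh with rfl | hh
      · have e : c⁻¹ * (g * w * g⁻¹) * c = c⁻¹ * g * w * (c⁻¹ * g)⁻¹ := by group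
        rw [e]; exact hw
      · rw [Set.mem_singleton_iff] at hh
        rw [hh]
        have e : c⁻¹ * (g * m * g⁻¹) * c = c⁻¹ * g * m * (c⁻¹ * g)⁻¹ := by group
        rw [e]; exact hmL
  refine h1.trans ?_
  have h2 : ∀ m : G, ind (m ∈ M ⊓ Subgroup.centralizer {y}) *
        cnt N₀ L {g * w * g⁻¹, g * m * g⁻¹} ≤
      ind (m ∈ M ⊓ Subgroup.centralizer {y}) * (Nat.card N₀ *
        ∑ i, c i * ind (g * w * g⁻¹ ∈ X i ∧ g * m * g⁻¹ ∈ X i)) := by
    intro m
    refine mul_le_mul_of_nonneg_left ?_ (ind_nonneg _)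
    refine (hge _).trans (le_of_eq ?_)
    congr 1
    refine Finset.sum_congr rfl (fun i _ => ?_)
    congr 1
    apply ind_congr
    simp
  refine (Finset.sum_le_sum (fun m _ => h2 m)).trans (le_of_eq ?_)
  simp_rw [Finset.mul_sum]
  rw [Finset.sum_comm]
  refine Finset.sum_congr rfl (fun i _ => ?_)
  rw [← sum_ind_mem (M ⊓ Subgroup.centralizer {y} ⊓ cj g⁻¹ (X i)), Finset.mul_sum,
    Finset.mul_sum, Finset.mul_sum]
  refine Finset.sum_congr rfl (fun m _ => ?_)
  rw [ind_and, Subgroup.mem_inf (p := M ⊓ Subgroup.centralizer {y}), ind_and (m ∈ M ⊓ _),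
    mem_cj, inv_inv]
  ring

/-- step (1c) -/
theorem stepA_c (M N X : Subgroup G) [hN : N.Normal] (x w g : G) (hg : g⁻¹ * x * g ∈ M) :
    (Nat.card N : ℚ) * (ind (g * w * g⁻¹ ∈ X) * Nat.card
          (M ⊓ Subgroup.centralizer {g⁻¹ * x * g} ⊓ cj g⁻¹ X : Subgroup G)) ≤
      Nat.card (N ⊓ M ⊓ Subgroup.centralizer {g⁻¹ * x * g} : Subgroup G) *
        al (X ⊔ N) (M ⊔ N) x w g := by
  set y := g⁻¹ * x * g with hy
  set X' := cj g⁻¹ (X ⊔ N) with hX'
  by_cases hw : g * w * g⁻¹ ∈ X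
  · have hal : al (X ⊔ N) (M ⊔ N) x w g = Nat.card (X' ⊓ (M ⊔ N) : Subgroup G) := by
      rw [← sum_ind_mem]
      unfold al
      refine Finset.sum_congr rfl (fun m _ => ?_)
      apply ind_congr
      rw [Subgroup.mem_inf, hX', mem_cj, inv_inv]
      constructor
      · rintro ⟨h1, h2, h3, h4⟩
        exact ⟨h4, h1⟩
      · rintro ⟨h4, h1⟩
        exact ⟨h1, Subgroup.mem_sup_left hw, Subgroup.mem_sup_left hg, h4⟩
    rw [hal, ind_pos hw, one_mul]
    have h1 := card_inf_sup X' M N (le_cj_normal g⁻¹ (X ⊔ N) N le_sup_right)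
    set P := M ⊓ Subgroup.centralizer {y} ⊓ cj g⁻¹ X with hP
    have hPE : P ≤ X' ⊓ M := by
      rintro p ⟨⟨hp1, _⟩, hp3⟩
      refine ⟨?_, hp1⟩
      exact (mem_cj _ _ _).mpr (Subgroup.mem_sup_left ((mem_cj _ _ _).mp hp3))
    have hQE : N ⊓ M ≤ X' ⊓ M :=
      inf_le_inf_right _ (le_cj_normal g⁻¹ (X ⊔ N) N le_sup_right)
    have h2 := card_mul_card_le P (N ⊓ M) (X' ⊓ M) hPE hQE
    have h3 : Nat.card ((N ⊓ M) ⊓ P : Subgroup G) ≤
        Nat.card (N ⊓ M ⊓ Subgroup.centralizer {y} : Subgroup G) := by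
      apply Subgroup.card_le_of_le
      rintro p ⟨hp1, ⟨⟨_, hp2⟩, _⟩⟩
      exact ⟨hp1, hp2⟩
    have h4 : Nat.card (N ⊓ M : Subgroup G) * (Nat.card N * Nat.card P) ≤
        Nat.card (N ⊓ M : Subgroup G) *
          (Nat.card (N ⊓ M ⊓ Subgroup.centralizer {y} : Subgroup G) *
            Nat.card (X' ⊓ (M ⊔ N) : Subgroup G)) := by
      calc _ = Nat.card N * (Nat.card P * Nat.card (N ⊓ M : Subgroup G)) := by ring
        _ ≤ Nat.card N * (Nat.card ((N ⊓ M) ⊓ P : Subgroup G) *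
              Nat.card (X' ⊓ M : Subgroup G)) := Nat.mul_le_mul_left _ h2
        _ = Nat.card ((N ⊓ M) ⊓ P : Subgroup G) *
              (Nat.card N * Nat.card (X' ⊓ M : Subgroup G)) := by ring
        _ ≤ Nat.card (N ⊓ M ⊓ Subgroup.centralizer {y} : Subgroup G) *
              (Nat.card N * Nat.card (X' ⊓ M : Subgroup G)) := Nat.mul_le_mul_right _ h3
        _ = _ := by rw [← h1]; ring
    have h5 := Nat.le_of_mul_le_mul_left h4 Nat.card_pos
    exact_mod_cast h5
  · rw [ind_neg hw, zero_mul, mul_zero]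
    exact mul_nonneg (Nat.cast_nonneg _) (al_nonneg _ _ _ _ _)

theorem stepA_pt1 (L M N : Subgroup G) [hN : N.Normal] (x w : G)
    (cx : (orderOf x).Coprime (Nat.card N)) (hM : ∀ m ∈ M, m * w = w * m)
    (hL : L ≤ Subgroup.centralizer {x})
    {ι : Type u} [Fintype ι] (X : ι → Subgroup G) (c : ι → ℚ) (hc : ∀ i, 0 ≤ c i)
    (hge : ∀ H : Set G, cnt (N ⊓ Subgroup.centralizer {x}) L H ≤
      Nat.card (N ⊓ Subgroup.centralizer {x} : Subgroup G) *
        ∑ i, c i * ind (∀ h ∈ H, h ∈ X i))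
    (g : G) (hg : g⁻¹ * x * g ∈ M) :
    (Nat.card N : ℚ) * ∑ n : G, ind (n ∈ N) * al L M x w (n * g) ≤
      Nat.card (N ⊓ M : Subgroup G) *
        (Nat.card (N ⊓ Subgroup.centralizer {x} : Subgroup G) *
          ∑ i, c i * al (X i ⊔ N) (M ⊔ N) x w g) := by
  have ha := stepA_a L M N x w cx hM g hg
  have hb := stepA_b L M N x w hL X c hge g
  set D := N ⊓ M ⊓ Subgroup.centralizer {g⁻¹ * x * g} with hD
  have hDpos : (0 : ℚ) < Nat.card D := by exact_mod_cast Nat.card_pos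
  refine le_of_mul_le_mul_left ?_ hDpos
  set N₀ := N ⊓ Subgroup.centralizer {x} with hN₀
  have hsum : (Nat.card N : ℚ) * ∑ i, c i *
        (ind (g * w * g⁻¹ ∈ X i) * Nat.card
          (M ⊓ Subgroup.centralizer {g⁻¹ * x * g} ⊓ cj g⁻¹ (X i) : Subgroup G)) ≤
      Nat.card D * ∑ i, c i * al (X i ⊔ N) (M ⊔ N) x w g := by
    rw [Finset.mul_sum, Finset.mul_sum]
    refine Finset.sum_le_sum (fun i _ => ?_)
    have := mul_le_mul_of_nonneg_left (stepA_c M N (X i) x w g hg) (hc i)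
    calc _ = _ := by ring
      _ ≤ _ := this
      _ = _ := by ring
  calc (Nat.card D : ℚ) * (Nat.card N * ∑ n : G, ind (n ∈ N) * al L M x w (n * g))
      = Nat.card N * (Nat.card D * ∑ n : G, ind (n ∈ N) * al L M x w (n * g)) := by ring
    _ = Nat.card N * (Nat.card (N ⊓ M : Subgroup G) *
          ∑ c : G, ind (c ∈ N₀) * al L M x w (c * g)) := by rw [ha]
    _ ≤ Nat.card N * (Nat.card (N ⊓ M : Subgroup G) *
          (Nat.card N₀ * ∑ i, c i *
        (ind (g * w * g⁻¹ ∈ X i) * Nat.card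
          (M ⊓ Subgroup.centralizer {g⁻¹ * x * g} ⊓ cj g⁻¹ (X i) : Subgroup G)))) := by
        refine mul_le_mul_of_nonneg_left (mul_le_mul_of_nonneg_left hb ?_) ?_ <;>
          exact Nat.cast_nonneg _
    _ = Nat.card (N ⊓ M : Subgroup G) * (Nat.card N₀ * (Nat.card N * ∑ i, c i *
        (ind (g * w * g⁻¹ ∈ X i) * Nat.card
          (M ⊓ Subgroup.centralizer {g⁻¹ * x * g} ⊓ cj g⁻¹ (X i) : Subgroup G)))) := by ring
    _ ≤ Nat.card (N ⊓ M : Subgroup G) * (Nat.card N₀ *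
          (Nat.card D * ∑ i, c i * al (X i ⊔ N) (M ⊔ N) x w g)) := by
        refine mul_le_mul_of_nonneg_left (mul_le_mul_of_nonneg_left hsum ?_) ?_ <;>
          exact Nat.cast_nonneg _
    _ = _ := by ring

theorem stepA_pt (L M N : Subgroup G) [hN : N.Normal] (x w : G)
    (cx : (orderOf x).Coprime (Nat.card N)) (hM : ∀ m ∈ M, m * w = w * m)
    (hL : L ≤ Subgroup.centralizer {x})
    {ι : Type u} [Fintype ι] (X : ι → Subgroup G) (c : ι → ℚ) (hc : ∀ i, 0 ≤ c i)
    (hge : ∀ H : Set G, cnt (N ⊓ Subgroup.centralizer {x}) L H ≤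
      Nat.card (N ⊓ Subgroup.centralizer {x} : Subgroup G) *
        ∑ i, c i * ind (∀ h ∈ H, h ∈ X i))
    (g : G) :
    (Nat.card N : ℚ) * ∑ n : G, ind (n ∈ N) * al L M x w (n * g) ≤
      Nat.card (N ⊓ M : Subgroup G) *
        (Nat.card (N ⊓ Subgroup.centralizer {x} : Subgroup G) *
          ∑ i, c i * al (X i ⊔ N) (M ⊔ N) x w g) := by
  by_cases hex : ∃ n₁ ∈ N, (n₁ * g)⁻¹ * x * (n₁ * g) ∈ M
  · obtain ⟨n₁, hn₁, h1⟩ := hex
    have h3 := stepA_pt1 L M N x w cx hM hL X c hc hge (n₁ * g) h1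
    have e1 : ∀ i, al (X i ⊔ N) (M ⊔ N) x w (n₁ * g) = al (X i ⊔ N) (M ⊔ N) x w g := fun i =>
      al_smul (X i ⊔ N) (M ⊔ N) N le_sup_right le_sup_right x w g n₁ hn₁
    have e2 : ∑ n : G, ind (n ∈ N) * al L M x w (n * (n₁ * g)) =
        ∑ n : G, ind (n ∈ N) * al L M x w (n * g) := by
      rw [← sum_mul_right n₁ (fun n => ind (n ∈ N) * al L M x w (n * g))]
      refine Finset.sum_congr rfl (fun n _ => ?_)
      rw [mul_assoc n]
      congr 1
      apply ind_congr
      exact (N.mul_mem_cancel_right hn₁).symm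
    simp_rw [e1, e2] at h3
    exact h3
  · have h0 : ∑ n : G, ind (n ∈ N) * al L M x w (n * g) = 0 := by
      refine Finset.sum_eq_zero (fun n _ => ?_)
      by_cases hn : n ∈ N
      · have : al L M x w (n * g) = 0 := by
          unfold al
          refine Finset.sum_eq_zero (fun m _ => ?_)
          apply ind_neg
          rintro ⟨_, _, h, _⟩
          exact hex ⟨n, hn, h⟩
        rw [this, mul_zero]
      · rw [ind_neg hn, zero_mul]
    rw [h0, mul_zero]
    refine mul_nonneg (Nat.cast_nonneg _) (mul_nonneg (Nat.cast_nonneg _)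
      (Finset.sum_nonneg (fun i _ => mul_nonneg (hc i) (al_nonneg _ _ _ _ _))))

/-- step (a) -/
theorem stepA (L M N : Subgroup G) [hN : N.Normal] (x w : G)
    (cx : (orderOf x).Coprime (Nat.card N)) (hM : ∀ m ∈ M, m * w = w * m)
    (hL : L ≤ Subgroup.centralizer {x})
    {ι : Type u} [Fintype ι] (X : ι → Subgroup G) (c : ι → ℚ) (hc : ∀ i, 0 ≤ c i)
    (hge : ∀ H : Set G, cnt (N ⊓ Subgroup.centralizer {x}) L H ≤
      Nat.card (N ⊓ Subgroup.centralizer {x} : Subgroup G) *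
        ∑ i, c i * ind (∀ h ∈ H, h ∈ X i)) :
    (Nat.card N : ℚ) * (Nat.card N * Dn L M x w) ≤
      Nat.card (N ⊓ M : Subgroup G) *
        (Nat.card (N ⊓ Subgroup.centralizer {x} : Subgroup G) *
          ∑ i, c i * Dn (X i ⊔ N) (M ⊔ N) x w) := by
  have h := Finset.sum_le_sum (s := Finset.univ)
    (fun (g : G) _ => stepA_pt L M N x w cx hM hL X c hc hge g)
  rw [← Finset.mul_sum, ← Finset.mul_sum, ← Finset.mul_sum, sum_avg] at h
  refine le_trans h (le_of_eq ?_)
  congr 2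
  rw [Finset.sum_comm]
  refine Finset.sum_congr rfl (fun i _ => ?_)
  unfold Dn
  rw [Finset.mul_sum]

end Pool.MP_2bb03e_al.KG
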